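import Pool.Agent.MP_3ee8cb_gt.T0.Spec
import Pool.Agent.MP_3ee8cb_gt.DNB2.Fin

/-! A pinched target and a nonpositively curved source: the statement layer. -/

namespace Pool.Agent.MP_3ee8cb_gt.T0

open DN (Dim dm)
open Pool.Agent.MP_3ee8cb_gt.SL SLN

variable [Dim]

theorem finN0 {δ : ℝ} (A : DN.MainN δ) (B : PartB0)
    (g h : Met dm) (Γ Λ : Type) [Group Γ] [Group Λ] [MulAction Γ (E dm)] [MulAction Λ (E dm)]
    (Φ : ℝ → UT g → UT g) (Ψ : ℝ → UT h → UT h) (f : UM g Γ ≃ₜ UM h Λ) (hg : Riem g)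
    (hh : Riem h) (dg : Deck g Γ) (dh : Deck h Λ) (sg : SL3.Smooth g Γ) (sh : SL3.Smooth h Λ)
    (fg : IsFlow g Φ) (fh : IsFlow h Ψ) (hf : Conj Φ Ψ f) (hM : CurvLe g 0)
    (hN : SL3.Pinched h (min (1 + δ) 4)) : SL3.Isometric g h Γ Λ := by
  replace sg : Smooth g Γ := ⟨sg.met, sg.act⟩
  replace sh : Smooth h Λ := ⟨sh.met, sh.act⟩
  obtain ⟨g, rfl, rg⟩ := link_riem hg
  obtain ⟨h, rfl, rh⟩ := link_riem hh
  have n0 : 3 ≤ dm := Nat.le_add_left 3 _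
  have qg := LV.all_qp (by omega) rg (link_deck dg) (link_flow rg fg)
  have qh := LV.all_qp (by omega) rh (link_deck dh) (link_flow rh fh)
  obtain ⟨ρ, F, cj, -⟩ := LV.lift2 dm g h Γ Λ Φ Ψ f n0 qg.rp qh.rp hf
  obtain ⟨a, b, ha, hb, K⟩ := link_pin rh hN
  have K' := link_curv rg hM
  have hb4 : b ^ 2 < 4 * a ^ 2 :=
    hb.trans_le (mul_le_mul_of_nonneg_right (min_le_right _ _) (sq_nonneg a))
  have hb1 : b ^ 2 < (1 + δ) * a ^ 2 :=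
    hb.trans_le (mul_le_mul_of_nonneg_right (min_le_left _ _) (sq_nonneg a))
  obtain ⟨c1, c2⟩ := B g h Γ Λ Φ Ψ ρ F (link_sm qg sg) (link_sm qh sh) cj a b ha hb4 K' K
  obtain ⟨G, hG⟩ := link_mainN A g h Γ Λ Φ Ψ ρ F (link_sm qg sg) (link_sm qh sh) cj a b ha hb1
    K' K c1 c2
  exact ⟨G, ρ, hG⟩

end Pool.Agent.MP_3ee8cb_gt.T0
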