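import Pool.Agent.MP_3ee8cb_gt.T0.RDEC
import Pool.Agent.MP_3ee8cb_gt.DNB2.RTst
import Pool.Agent.MP_3ee8cb_gt.DNC0.RMov

/-! Spheres are uniformly convex. -/

namespace Pool.Agent.MP_3ee8cb_gt.T0

open DN (Dim dm)
open Set Filter Topology Real DN DNC0 DNB2
open scoped RealInnerProductSpace

namespace RAN

theorem small {α : ℝ} (hα : 0 < α) (M : ℝ) :
    ∀ᶠ k : ℕ in atTop, M * (k : ℝ) ^ 2 * exp (-(α / 2 * k)) ≤ 1 := by
  have h0 : Tendsto (fun k : ℕ => α / 2 * (k : ℝ)) atTop atTop :=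
    tendsto_natCast_atTop_atTop.const_mul_atTop (by positivity)
  have h1 := ((tendsto_pow_mul_exp_neg_atTop_nhds_zero 2).comp h0).const_mul (M / (α / 2) ^ 2)
  rw [mul_zero] at h1
  filter_upwards [h1.eventually (ge_mem_nhds one_pos)] with k hk
  refine le_of_eq_of_le ?_ hk
  simp only [Function.comp]
  field_simp

theorem arith {k δ μ p o D D' C P Q : ℝ} (hk : 1 ≤ k) (d0 : 0 < δ) (C0 : 0 ≤ C) (P0 : 0 ≤ P)
    (Q0 : 0 ≤ Q) (hp : p ≤ (D - δ) / k) (hD : D ≤ C * δ ^ 2) (hD' : D' ≤ C * δ ^ 2)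
    (h1 : 2 * C * k ^ 2 * δ ≤ 1) (h2 : 4 * (P * (1 + 2 * C) + Q) * k ^ 2 * δ ≤ 1)
    (ho : |o| ≤ P * (k * δ ^ 2 + D + D')) (hy : |o - p + δ * μ| ≤ Q * δ ^ 2) :
    1 / (4 * k) ≤ -μ := by
  have k0 : 0 < k := by linarith
  rw [le_div_iff₀ k0] at hp
  have k2 : 1 ≤ k ^ 2 := by nlinarith
  have a1 : 2 * C * δ ≤ 1 := by
    nlinarith [mul_le_mul_of_nonneg_left k2 (by positivity : 0 ≤ 2 * C * δ)]
  have a2 : p * k ≤ -(δ / 2) := by nlinarith [mul_le_mul_of_nonneg_left a1 d0.le]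
  have a3 : k * δ ^ 2 + D + D' ≤ k * (1 + 2 * C) * δ ^ 2 := by
    nlinarith [mul_le_mul_of_nonneg_right hk (by positivity : 0 ≤ C * δ ^ 2)]
  have a4 : -o ≤ P * (k * (1 + 2 * C) * δ ^ 2) :=
    ((neg_le_abs o).trans ho).trans (mul_le_mul_of_nonneg_left a3 P0)
  have a5 : Q * δ ^ 2 ≤ k * (Q * δ ^ 2) := le_mul_of_one_le_left (by positivity) hk
  have a6 : -p ≤ -(δ * μ) + k * (P * (1 + 2 * C) + Q) * δ ^ 2 := by
    nlinarith [(abs_le.1 hy).2]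
  have a7 := mul_le_mul_of_nonneg_right a6 k0.le
  have a8 := mul_le_mul_of_nonneg_right h2 d0.le
  have a9 : δ * (1 / 4) ≤ δ * (-μ * k) := by nlinarith
  have a10 := le_of_mul_le_mul_left a9 d0
  rw [div_le_iff₀ (by positivity)]
  linarith

variable [Dim]

theorem move {m : MF} {Γ : Type} [Group Γ] [MulAction Γ V] {O : Γ → V → V ≃ₗᵢ[ℝ] V}
    (ok : m.OK) (act : Act m Γ O) : ∃ R : ℝ, 1 ≤ R ∧ ∀ a : ℝ, (∀ (z ξ : W) (T : ℝ), ‖z‖ ≤ R →
      ‖z.2‖ = 1 → ‖m.hor z ξ‖ = 1 → ⟪m.hor z ξ, z.2⟫ = 0 → 0 < T → m.J z ξ T = 0 →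
        a ≤ -⟪m.ver z ξ, m.hor z ξ⟫) → An m a := by
  obtain ⟨K, hK, hc⟩ := act.cpt
  obtain ⟨R, hR⟩ := hK.isBounded.exists_norm_le
  refine ⟨max R 1, le_max_right _ _, fun a h z ξ T h1 h2 h3 hT hJ => ?_⟩
  obtain ⟨γ, hγ⟩ := hc z.1
  have e2 : (ac O γ z).2 = O γ z.1 z.2 := rfl
  have := h (ac O γ z) (fderiv ℝ (ac O γ) z ξ) T (by
      rw [Prod.norm_def, e2, LinearIsometryEquiv.norm_map, h1]
      exact max_le_max (hR _ hγ) le_rfl)
    (by rw [e2, LinearIsometryEquiv.norm_map, h1])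
    (by rw [RMov.hor_ac act, LinearIsometryEquiv.norm_map, h2])
    (by rw [RMov.hor_ac act, e2, LinearIsometryEquiv.inner_map_map, h3]) hT (by
      have e : m.Z T (ac O γ z) = ac O γ (m.Z T z) := act.flow γ T z
      rw [MF.J, RMov.chain1 ok act, e, RMov.hor_ac act]
      rw [MF.J] at hJ
      rw [hJ, map_zero])
  rwa [RMov.hor_ac act, RMov.ver_ac act, LinearIsometryEquiv.inner_map_map] at this

/-- The Busemann function is of second order on the normal plane. -/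
theorem bus2 {m : MF} {lg : W → V} {Γ : Type} [Group Γ] [MulAction Γ V] {β : W → V → ℝ}
    (ja : m.Jac) (ha : m.Had lg) (bs : Bs m lg Γ) (bz : B0 m lg β) (md : Mid m lg) :
    ∃ C : ℝ, 0 ≤ C ∧ ∀ (z : W) (l : V), ‖z.2‖ = 1 → ⟪l, z.2⟫ = 0 → ‖l‖ ≤ 1 →
      |β z (m.Z 1 (z.1, l)).1| ≤ C * ‖l‖ ^ 2 := by
  obtain ⟨Cm, m0, hm⟩ := md 1
  refine ⟨Cm, m0, fun z l h1 pl hl => ?_⟩
  have f1 := RTst.far ja ha h1 pl (t := 1) abs_one
  have f2 := RTst.far ja ha h1 pl (t := -1) (by simp)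
  have dy : ‖lg (z.1, (m.Z 1 (z.1, l)).1)‖ = ‖l‖ := by rw [ha.xe]
  obtain ⟨y, hy'⟩ : ∃ y, y = (m.Z 1 (z.1, l)).1 := ⟨_, rfl⟩
  rw [← hy'] at f1 f2 dy ⊢
  have f3 := hm z y h1 (by rwa [dy])
  rw [dy] at f3
  have fz : ‖(fl z).2‖ = 1 := by simpa [fl] using h1
  have g1 := bz.lip z y (m.Z 1 z).1 h1
  have g2 := bz.lip (fl z) y (m.Z 1 (fl z)).1 fz
  rw [bz.self _ _ h1, bs.symm] at g1
  rw [bz.self _ _ fz, bs.symm, bs.flip] at g2
  have g3 := bz.opp z y h1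
  have g2' : β (fl z) y - -1 ≤ ‖lg ((m.Z (-1) z).1, y)‖ := g2
  exact abs_le.2 ⟨by linarith only [g3, g2', f3, f1], by linarith only [g1, f3, f2]⟩

/-- The slope at the start. -/
theorem slope_le {m : MF} {lg : W → V} (ok : m.OK) (ha : m.Had lg) (cv : Cv m lg) {z w : W}
    {δ p k : ℝ} (d0 : 0 < δ) (k0 : 0 < k) (h0 : df m lg z w 0 = δ)
    (hp : -⟪lg (z.1, w.1), z.2⟫ - ⟪lg (w.1, z.1), w.2⟫ = δ * p) :
    p ≤ (df m lg z w k - δ) / k := by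
  have h := RDEC.der ok ha z w 0
  rw [ok.zero, ok.zero, hp] at h
  have h2 := (h.const_mul 2).sqrt (by rw [h0]; positivity)
  have e : (fun s => √(2 * (df m lg z w s ^ 2 / 2))) = df m lg z w := funext fun s => by
    rw [show 2 * (df m lg z w s ^ 2 / 2) = df m lg z w s ^ 2 by ring]
    exact sqrt_sq (norm_nonneg _)
  have e2 : 2 * (δ * p) / (2 * √(2 * (df m lg z w 0 ^ 2 / 2))) = p := by
    rw [congrFun e 0, h0]
    field_simp
  rw [e, e2] at h2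
  have := (cv z w).le_slope_of_hasDerivAt (mem_univ 0) (mem_univ k) k0 h2
  rwa [slope_def_field, h0, sub_zero] at this

end RAN

variable [Dim]

open RAN in
theorem an : SAN := by
  intro m lg Γ _ _ O b N β e e0 cv kit bz _ as dec jb tl ty
  have ok := N.ok
  have ja := N.jac
  have ha := N.had
  have bs := kit.bs
  obtain ⟨R, R1, hR⟩ := move ok N.act
  obtain ⟨Cm, m0, hm⟩ := bus2 ja ha bs bz kit.md
  obtain ⟨Cd, α, t₁, d0, α0, hd⟩ := dec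
  obtain ⟨B, B0, hB⟩ := jb
  obtain ⟨Ct, t0, ht⟩ := tl R
  obtain ⟨R₁, hR₁⟩ := bs.bdd R
  obtain ⟨Cl, l0, hl⟩ := bs.del (max R R₁)
  obtain ⟨Cy, y0, hy⟩ := ty R (Cl * 2)
  obtain ⟨k, ⟨k1, kt⟩, q1, q2, q3⟩ := (((eventually_ge_atTop 1).and
    (tendsto_natCast_atTop_atTop.eventually (eventually_ge_atTop t₁))).and
    ((small α0 ((1 + Cm) * 2 / e)).and ((small α0 (2 * (Cd + Cm))).and
    (small α0 (4 * (Ct * B * (1 + 2 * (Cd + Cm)) + Cy * (1 + B))))))).exists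
  have k1' : (1 : ℝ) ≤ k := by exact_mod_cast k1
  obtain ⟨δ, hδ⟩ : ∃ δ, δ = exp (-(α / 2 * k)) := ⟨_, rfl⟩
  rw [← hδ] at q1 q2 q3
  have δ0 : 0 < δ := by rw [hδ]; exact exp_pos _
  have δ1 : δ ≤ 1 := by rw [hδ]; exact exp_le_one_iff.2 (neg_nonpos.2 (by positivity))
  have δ2 : exp (-(α * k)) = δ ^ 2 := by rw [hδ, sq, ← exp_add]; congr 1; ring
  have δe : δ + Cm * δ ^ 2 ≤ e / 2 := by
    have k2 : (1 : ℝ) ≤ (k : ℝ) ^ 2 := by nlinarith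
    have a1 : (1 + Cm) * 2 / e * δ ≤ 1 := by
      nlinarith [mul_le_mul_of_nonneg_left k2 (by positivity : 0 ≤ (1 + Cm) * 2 / e * δ)]
    rw [div_mul_eq_mul_div, div_le_one e0] at a1
    nlinarith [mul_le_mul_of_nonneg_left δ1 (mul_nonneg m0 δ0.le)]
  refine ⟨min b (1 / (4 * k)), lt_min N.b0 (by positivity), min_le_left _ _,
    hR _ fun z ξ T hz h1 hn hp T0 hJ => (min_le_right _ _).trans ?_⟩
  obtain ⟨j1, j2⟩ := hB z ξ T h1 hn T0 hJ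
  rcases le_total T (k + 1) with hT | hT
  · exact (one_div_le_one_div_of_le T0 (by linarith)).trans j1
  rcases le_total 1 (-⟪m.ver z ξ, m.hor z ξ⟫) with hμ | hμ
  · exact ((div_le_one (by positivity)).2 (by linarith)).trans hμ
  replace j2 := j2 hμ
  have vB : ‖m.ver z ξ‖ ≤ B := by
    have h := j2 0 le_rfl (by linarith)
    have e1 : m.Z 0 = id := funext ok.zero
    rw [e1, fderiv_id] at h
    exact (RTst.ver_le b z ξ).trans h
  obtain ⟨c, hc⟩ : ∃ c, c = m.Z δ (z.1, m.hor z ξ) := ⟨_, rfl⟩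
  have nl : ‖δ • m.hor z ξ‖ = δ := by rw [norm_smul, hn, mul_one, Real.norm_of_nonneg δ0.le]
  have sc : m.Z 1 (z.1, δ • m.hor z ξ) = (c.1, δ • c.2) := by rw [ja.scale, mul_one, hc]
  have l1 : lg (z.1, c.1) = δ • m.hor z ξ := by
    have := ha.xe z.1 (δ • m.hor z ξ)
    rwa [sc] at this
  have l2 : lg (c.1, z.1) = -(δ • c.2) := by rw [ha.rev, l1, sc]
  have hβ : |β z c.1| ≤ Cm * δ ^ 2 := by
    have := hm z (δ • m.hor z ξ) h1 (by rw [real_inner_smul_left, hp, mul_zero]) (by rwa [nl])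
    rwa [sc, nl] at this
  obtain ⟨n, n1, n2, n3⟩ := as z c.1 h1 (by
    rw [l1, nl]; nlinarith [mul_nonneg m0 (sq_nonneg δ)])
  rw [l1, nl] at n2
  have sh : ∀ t, ‖lg ((m.Z t (m.Z (β z c.1) (c.1, n))).1, (m.Z t (c.1, n)).1)‖ ≤ Cm * δ ^ 2 :=
    fun t => by
      rw [← ok.add, bs.geo, add_sub_cancel_left]
      simpa only [n1, mul_one] using hβ
  have u0 : df m lg z (m.Z (β z c.1) (c.1, n)) 0 ≤ e / 2 := by
    have h3 := ha.tri (m.Z 0 z).1 (m.Z 0 (c.1, n)).1 (m.Z 0 (m.Z (β z c.1) (c.1, n))).1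
    have h4 := sh 0
    rw [bs.symm] at h4
    have h5 : ‖lg ((m.Z 0 z).1, (m.Z 0 (c.1, n)).1)‖ ≤ δ := n2 0 le_rfl
    rw [df]
    linarith
  have dk : ∀ t : ℝ, k ≤ t → df m lg z (c.1, n) t ≤ (Cd + Cm) * δ ^ 2 := fun t hk => by
    have h2 := hd z _ h1 (by rw [ja.norm]; exact n1) n3 u0 t (kt.trans hk)
    have h3 := ha.tri (m.Z t z).1 (m.Z t (m.Z (β z c.1) (c.1, n))).1 (m.Z t (c.1, n)).1
    have h4 : exp (-(α * t)) ≤ δ ^ 2 := by
      rw [← δ2]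
      exact exp_le_exp.2 (neg_le_neg (mul_le_mul_of_nonneg_left hk α0.le))
    have h5 := mul_le_mul_of_nonneg_left h4 d0
    rw [df] at h2 ⊢
    linarith [sh t]
  have D0 : df m lg z (c.1, n) 0 = δ := by rw [df, ok.zero, ok.zero, l1, nl]
  have sl := slope_le ok ha cv (z := z) (w := (c.1, n)) (p := ⟪c.2, n⟫) δ0
    (by linarith : (0 : ℝ) < k) D0 (by
      rw [l1, l2, real_inner_smul_left, hp, inner_neg_left, real_inner_smul_left]
      ring)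
  have nw : ‖((c.1, n) : W)‖ ≤ max R R₁ := by
    rw [Prod.norm_def]
    refine max_le ((hR₁ z.1 c.1 ((norm_fst_le z).trans hz) ?_).trans (le_max_right _ _))
      ((n1.trans_le R1).trans (le_max_left _ _))
    rw [l1, nl]
    linarith
  have wz : ‖((c.1, n) : W) - z‖ ≤ Cl * 2 * δ := by
    refine (hl z _ (hz.trans (le_max_left _ _)) nw).trans ?_
    rw [mul_assoc]
    exact mul_le_mul_of_nonneg_left (by linarith [n2 0 le_rfl, n2 1 zero_le_one]) l0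
  have t1 := ht k z (c.1, n) ξ δ B hz h1 n1 δ1 (fun j _ => n2 j j.cast_nonneg) fun j hj =>
    j2 j j.cast_nonneg (by
      have : (j : ℝ) ≤ k := by exact_mod_cast hj
      linarith)
  have t2 := hy z ξ c n δ hz h1 hn hp n1 δ0 δ1 hc wz
  refine arith k1' δ0 (add_nonneg d0 m0) (mul_nonneg t0 B0)
    (mul_nonneg y0 (by linarith : 0 ≤ 1 + B)) sl (dk k le_rfl) (dk (k + 1) (by linarith)) q2 q3
    t1 (t2.trans ?_)
  nlinarith [mul_le_mul_of_nonneg_left vB (mul_nonneg y0 (sq_nonneg δ))]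

end Pool.Agent.MP_3ee8cb_gt.T0
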