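import Pool.Agent.MP_3ee8cb_gt.T0.Spec

/-! Asymptotes through nearby points. -/

namespace Pool.Agent.MP_3ee8cb_gt.T0

open DN (Dim dm)

variable [Dim]

open Set Filter Topology Real DN DNC0 DNB2

theorem as_ : SAS := by
  intro m lg Γ _ _ O b N β e cv kit b0 x1 z y hz hy
  have bs := kit.bs
  set δ := ‖lg (z.1, y)‖ with hδ
  have δ0 : 0 ≤ δ := norm_nonneg _
  obtain ⟨v, hvd⟩ : ∃ v : ℕ → V,
      ∀ T : ℕ, v T = ((T : ℝ) + 1)⁻¹ • lg (y, (m.Z ((T : ℝ) + 1) z).1) := ⟨_, fun _ => rfl⟩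
  have p1 : ∀ T : ℕ, (0 : ℝ) < T + 1 := fun T => by positivity
  have hv : ∀ T : ℕ, |‖v T‖ - 1| ≤ δ * (1 / ((T : ℝ) + 1)) := fun T => by
    have g := bs.geo z 0 ((T : ℝ) + 1)
    rw [N.ok.zero, hz, zero_sub, abs_neg, abs_of_pos (p1 T), mul_one] at g
    have t1 := N.had.tri z.1 y (m.Z ((T : ℝ) + 1) z).1
    have t2 := N.had.tri y z.1 (m.Z ((T : ℝ) + 1) z).1
    rw [bs.symm y z.1] at t2
    have e1 : ‖v T‖ - 1 = (‖lg (y, (m.Z ((T : ℝ) + 1) z).1)‖ - (T + 1)) * (1 / ((T : ℝ) + 1)) := by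
      rw [hvd, norm_smul, norm_inv, Real.norm_of_nonneg (p1 T).le]
      field_simp
    rw [e1, abs_mul, abs_of_pos (one_div_pos.2 (p1 T))]
    exact mul_le_mul_of_nonneg_right (abs_le.2 ⟨by linarith, by linarith⟩)
      (one_div_pos.2 (p1 T)).le
  have hd : ∀ (T : ℕ) (t : ℝ), 0 ≤ t → t ≤ T + 1 → df m lg z (y, v T) t ≤ δ := fun T t h0 h1 => by
    have k := (cv z (y, v T)).le_max_of_mem_Icc (mem_univ 0) (mem_univ ((T : ℝ) + 1)) ⟨h0, h1⟩
    refine k.trans (max_le ?_ ?_)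
    · rw [df, N.ok.zero, N.ok.zero]
    · rw [df, hvd, N.jac.scale, inv_mul_cancel₀ (p1 T).ne', N.had.ex, bs.self, norm_zero]
      exact δ0
  have hb : ∀ T, v T ∈ Metric.closedBall (0 : V) (1 + δ) := fun T => by
    have h1 : 1 / ((T : ℝ) + 1) ≤ 1 := (div_le_one (p1 T)).2 (by linarith [T.cast_nonneg (α := ℝ)])
    rw [mem_closedBall_zero_iff]
    linarith [(abs_le.1 (hv T)).2, mul_le_mul_of_nonneg_left h1 δ0]
  obtain ⟨n, -, φ, hφ, hn⟩ := (isCompact_closedBall (0 : V) (1 + δ)).tendsto_subseq hb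
  have n1 : ‖n‖ = 1 := by
    have l1 : Tendsto (fun T : ℕ => δ * (1 / ((T : ℝ) + 1))) atTop (𝓝 0) := by
      simpa using (tendsto_one_div_add_atTop_nhds_zero_nat (𝕜 := ℝ)).const_mul δ
    have l2 : Tendsto (fun T => ‖v T‖) atTop (𝓝 1) :=
      tendsto_iff_norm_sub_tendsto_zero.2 (squeeze_zero (fun _ => norm_nonneg _) hv l1)
    exact tendsto_nhds_unique hn.norm (l2.comp hφ.tendsto_atTop)
  have hn2 : ∀ t, 0 ≤ t → df m lg z (y, n) t ≤ δ := fun t h0 => by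
    have c0 : Continuous fun u : V => m.Z t (y, u) :=
      N.ok.cZ.continuous.comp (f := fun u : V => (t, y, u)) (by fun_prop)
    have c2 := N.had.c1.continuous
    have c1 : Continuous fun u : V => df m lg z (y, u) t := by
      unfold df
      fun_prop
    refine le_of_tendsto ((c1.tendsto n).comp hn) ?_
    filter_upwards [(tendsto_natCast_atTop_atTop.comp hφ.tendsto_atTop).eventually_ge_atTop t]
      with k hk
    exact hd _ t h0 (le_trans hk (by simp))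
  obtain ⟨c, hc⟩ := x1 (y, n) z n1 hz fun t h0 => by
    rw [df, bs.symm]
    exact (hn2 t h0).trans hy
  have e1 := b0.top _ z (by rw [N.jac.norm]; exact n1) hz hc y
  have e2 := b0.self (y, n) 0 n1
  rw [N.ok.zero] at e2
  have e3 : β (y, n) y = -0 := e2
  have e4 : c = β z y := by linarith only [e1, e3, b0.shift (y, n) c y n1]
  refine ⟨n, n1, hn2, ?_⟩
  rw [← e4]
  exact hc

end Pool.Agent.MP_3ee8cb_gt.T0
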