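import Pool.Agent.MP_3ee8cb_gt.T0.Spec
import Pool.Agent.MP_3ee8cb_gt.DNB2.RCj
import Pool.Agent.MP_3ee8cb_gt.DNC0.RNear

/-! Links between frames and metrics. -/

namespace Pool.Agent.MP_3ee8cb_gt.T0

open DN (Dim dm)

variable [Dim]

open Set Filter Topology Real DN DNC0 DNB2
open CR (Met UT dd ng bus MinP)
open scoped RealInnerProductSpace

namespace RCON

variable {g : Met dm} {Φ : ℝ → UT g → UT g} {m : MF} {lg : W → V} {β : W → V → ℝ}

theorem zero (o : m.OK) (l : Ln g Φ m lg β) (p q : UT g) :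
    df m lg (fz m p) (fz m q) 0 = dd g p.1.1 q.1.1 := by
  rw [df, o.zero, o.zero, l.dist]
  rfl

theorem same {p q : UT g} (e : p.1.1 = q.1.1) : ((p.1.1, (fz m q).2) : W) = fz m q :=
  Prod.ext e rfl

end RCON

open RCON RCj

theorem con : SCON := by
  intro g C Γ _ _ Φ q _ m lg β a o k l
  refine ⟨fun H p p' e s t hs ht => ?_, fun H p p' e R T h0 hT => ?_, fun H => ?_⟩
  · have h1 := H p.1.1 (fz m p).2 (fz m p').2 (l.unit p) (l.unit p') s t hs ht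
    have h2 : ⟪(fz m p).2, (fz m p').2⟫ = g p.1.1 p.1.2 p'.1.2 := by
      rw [← k.orth p.1.1]
      change g p.1.1 (m.R p.1.1 (m.S p.1.1 p.1.2)) (m.R p.1.1 (m.S p'.1.1 p'.1.2)) = _
      rw [← e, o.RS, o.RS]
    rw [same e, same rfl, h2, l.flow, l.flow, l.dist] at h1
    exact h1
  · have h1 := H p.1.1 (fz m p).2 (fz m p').2 (l.unit p) (l.unit p') R T h0 hT
    rw [same e, same rfl, dfe l] at h1
    exact h1
  · obtain ⟨K, δ₀, K0, d0, H⟩ := H
    refine ⟨K, δ₀, K0, d0, fun δ z z' hz hz' h0 h1 h2 h3 x => ?_⟩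
    obtain ⟨w, rfl⟩ := l.onto z hz
    obtain ⟨w', rfl⟩ := l.onto z' hz'
    rw [zero o l] at h2
    rw [dfe l] at h3
    rw [← l.neg, ← l.bus, ← l.bus]
    exact H δ w w' h0 h1 h2 h3 x

theorem bz0 : SBZ0 := by
  intro g C Γ _ _ Φ q _ m lg β a o _ l b ha mh th lb lp
  refine ⟨b.lim, b.lip, b.self, b.shift, b.top, b.opp, fun z y hz => ?_, fun η hη => ?_⟩
  · obtain ⟨p, rfl⟩ := l.onto z hz
    rw [← l.neg, ← l.bus, ← l.bus, l.dist]
    obtain ⟨u, h1, h2⟩ := q.rp.hr p.1.1 y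
    have h0 : 0 ≤ dd g p.1.1 y := q.rp.db.nonneg _ _
    have a1 := lb p u h1.symm _ h0
    have a2 := lb (ng p) u h1.symm _ h0
    have e : g (ng p).1.1 (ng p).1.2 u.1.2 = -g p.1.1 p.1.2 u.1.2 := by simp [ng]
    rw [h2] at a1 a2
    rw [e] at a2
    have sh : 0 ≤ sinh (a * dd g p.1.1 y) := sinh_nonneg_iff.2 (by positivity)
    change cosh (a * dd g p.1.1 y) ≤ _
    rcases le_total (g p.1.1 p.1.2 u.1.2) 0 with h | h
    · exact le_max_of_le_left (by nlinarith)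
    · exact le_max_of_le_right (by nlinarith)
  · obtain ⟨δ, hδ, H⟩ := RNear.uni q ha mh th lp hη
    refine ⟨δ, hδ, fun z z' hz hz' h0 h1 => ?_⟩
    obtain ⟨p, rfl⟩ := l.onto z hz
    obtain ⟨p', rfl⟩ := l.onto z' hz'
    rw [dfe l] at h1
    rw [zero o l] at h0
    obtain ⟨u, t₀, b0, b1, b2⟩ := H p p' h0 h1
    refine ⟨fz m u, t₀, l.unit u, fun T hT => ?_, ?_, ?_⟩
    · rw [dfe l]
      exact b0 T hT
    · rw [Bw, dfe l]
      exact b1
    · rw [l.flow, Fw, dfe l]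
      exact b2

theorem pr : SPR := by
  intro g h Γ Λ _ _ _ _ Φ Ψ ρ F m m' lg lg' β β' qg qh cj mg mh o o' l l'
  have sj := DNFL.HFLP.cj_symm qg.rp.deck cj
  have uF := LV.uq dm g h Γ Λ Φ Ψ ρ F qg qh cj (LV.eqv dm h Λ Ψ qh mh)
  have uG := LV.uq dm h g Λ Γ Ψ Φ ρ.symm F.symm qh qg sj (LV.eqv dm g Γ Φ qg mg)
  have A : Asp g h Φ Ψ F := by
    refine ⟨cj.flow, fun p q => ⟨fun H => ?_, ?_⟩, fun p q => ⟨fun H => ?_, ?_⟩⟩
    · exact LV.min2_lim qh.rp.db qg.add sj.flow uG atTop RNear.hTop (F p) (F q)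
        (by rw [F.symm_apply_apply, F.symm_apply_apply]; exact H)
    · exact LV.min2_lim qg.rp.db qh.add cj.flow uF atTop RNear.hTop p q
    · exact LV.min2_lim qh.rp.db qg.add sj.flow uG atBot RNear.hBot (F p) (F q)
        (by rw [F.symm_apply_apply, F.symm_apply_apply]; exact H)
    · exact LV.min2_lim qg.rp.db qh.add cj.flow uF atBot RNear.hBot p q
  obtain ⟨φ, e, -⟩ := exm l l' o F.continuous
  refine ⟨A, φ, fun z hz => ?_, fun z hz => ?_, fun t z hz => ?_, fun z z' hz hz' => ?_,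
    fun z z' hz hz' => ?_, fun ε hε => ?_⟩
  · obtain ⟨p, rfl⟩ := l.onto z hz
    rw [e]
    exact l'.unit _
  · obtain ⟨p, rfl⟩ := l'.onto z hz
    exact ⟨fz m (F.symm p), l.unit _, by rw [e, F.apply_symm_apply]⟩
  · obtain ⟨p, rfl⟩ := l.onto z hz
    rw [l.flow, e, e, l'.flow, cj.flow]
  · obtain ⟨p, rfl⟩ := l.onto z hz
    obtain ⟨q, rfl⟩ := l.onto z' hz'
    rw [e, e, Fw, Fw, dfe l, dfe l']
    exact A.top p q
  · obtain ⟨p, rfl⟩ := l.onto z hz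
    obtain ⟨q, rfl⟩ := l.onto z' hz'
    rw [e, e, Bw, Bw, dfe l, dfe l']
    exact A.bot p q
  · obtain ⟨δ, hδ, H⟩ := uG.foot ε hε
    refine ⟨δ, hδ, fun z z' hz hz' hd => ?_⟩
    obtain ⟨p, rfl⟩ := l.onto z hz
    obtain ⟨q, rfl⟩ := l.onto z' hz'
    rw [dfe l] at hd
    rw [e, e, zero o' l']
    refine H (F p) (F q) fun t ht => ?_
    rw [F.symm_apply_apply, F.symm_apply_apply]
    exact hd t ht

end Pool.Agent.MP_3ee8cb_gt.T0
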