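import Pool.Agent.MP_3ee8cb_gt.T0.Spec

/-! Convexity of the distance of two geodesics, and a lower bound for Busemann functions. -/

namespace Pool.Agent.MP_3ee8cb_gt.T0

open DN (Dim dm)

variable [Dim]

open Set Filter Topology Real DN DNC0 DNB2
open scoped RealInnerProductSpace

noncomputable section

namespace RCV

variable {m : MF} {lg : W → V}

theorem step (o : m.OK) (j : m.Jac) (z : W) (s r : ℝ) :
    (m.Z (r + s) z).1 = (m.Z 1 ((m.Z s z).1, r • (m.Z s z).2)).1 := by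
  rw [o.add, j.scale, mul_one]

theorem symm (j : m.Jac) (h : m.Had lg) (x y : V) : ‖lg (x, y)‖ = ‖lg (y, x)‖ := by
  rw [h.rev y x, norm_neg, j.norm]

theorem geo (o : m.OK) (j : m.Jac) (h : m.Had lg) (z : W) (s t : ℝ) :
    ‖lg ((m.Z s z).1, (m.Z t z).1)‖ ^ 2 = (t - s) ^ 2 * ‖z.2‖ ^ 2 := by
  have e := step o j z s (t - s)
  rw [sub_add_cancel] at e
  rw [e, h.xe, norm_smul, j.norm, mul_pow, Real.norm_eq_abs, sq_abs]

theorem cn (o : m.OK) (j : m.Jac) (h : m.Had lg) (z : W) (x : V) (s t a b : ℝ) (ha : 0 ≤ a)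
    (hb : 0 ≤ b) (hab : a + b = 1) : ‖lg ((m.Z (a * s + b * t) z).1, x)‖ ^ 2 ≤
      a * ‖lg ((m.Z s z).1, x)‖ ^ 2 + b * ‖lg ((m.Z t z).1, x)‖ ^ 2 -
        a * b * ((t - s) ^ 2 * ‖z.2‖ ^ 2) := by
  obtain rfl : a = 1 - b := by linarith
  set c := (1 - b) * s + b * t with hc
  have k : ∀ r : ℝ, ‖r • (m.Z c z).2 - lg ((m.Z c z).1, x)‖ ^ 2 ≤
      ‖lg ((m.Z (r + c) z).1, x)‖ ^ 2 := fun r => by
    have := h.hinge (m.Z c z).1 (r • (m.Z c z).2) (lg ((m.Z c z).1, x))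
    rw [h.ex, ← step o j] at this
    exact pow_le_pow_left₀ (norm_nonneg _) this 2
  have k0 := k (-(b * (t - s)))
  have k1 := k ((1 - b) * (t - s))
  rw [show -(b * (t - s)) + c = s by rw [hc]; ring] at k0
  rw [show (1 - b) * (t - s) + c = t by rw [hc]; ring] at k1
  rw [norm_sub_sq_real, real_inner_smul_left, norm_smul, j.norm, mul_pow, Real.norm_eq_abs,
    sq_abs] at k0 k1
  nlinarith [mul_le_mul_of_nonneg_left k0 ha, mul_le_mul_of_nonneg_left k1 hb]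

theorem thin (o : m.OK) (j : m.Jac) (h : m.Had lg) (z z' : W) (s t s' t' a b : ℝ) (ha : 0 ≤ a)
    (hb : 0 ≤ b) (hab : a + b = 1) (e : (m.Z s z).1 = (m.Z s' z').1) :
    ‖lg ((m.Z (a * s + b * t) z).1, (m.Z (a * s' + b * t') z').1)‖ ≤
      b * ‖lg ((m.Z t z).1, (m.Z t' z').1)‖ := by
  have k0 := cn o j h z (m.Z (a * s' + b * t') z').1 s t a b ha hb hab
  have k1 := cn o j h z' (m.Z t z).1 s' t' a b ha hb hab
  rw [e, geo o j h] at k0
  rw [← e, geo o j h, symm j h, symm j h (m.Z t' z').1] at k1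
  obtain rfl : a = 1 - b := by linarith
  rw [show (1 - b) * s' + b * t' - s' = b * (t' - s') by ring] at k0
  refine le_of_sq_le_sq ?_ (mul_nonneg hb (norm_nonneg _))
  nlinarith [mul_le_mul_of_nonneg_left k1 hb]

end RCV

theorem cv : SCV := by
  intro m lg Γ _ _ O b N p q
  refine ⟨convex_univ, fun s _ t _ a c ha hc hac => ?_⟩
  have o := N.ok
  have j := N.jac
  have h := N.had
  set e : W := ((m.Z s p).1, lg ((m.Z s p).1, (m.Z t q).1)) with he
  have e0 : (m.Z 0 e).1 = (m.Z s p).1 := by rw [o.zero]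
  have e1 : (m.Z 1 e).1 = (m.Z t q).1 := h.ex _ _
  have k0 := RCV.thin o j h p e s t 0 1 a c ha hc hac e0.symm
  have k1 := RCV.thin o j h e q 1 0 t s c a hc ha (by linarith) e1
  rw [e1] at k0
  rw [e0, add_comm (c * 1), add_comm (c * t)] at k1
  have k2 := h.tri (m.Z (a * s + c * t) p).1 (m.Z (a * 0 + c * 1) e).1 (m.Z (a * s + c * t) q).1
  simp only [df, smul_eq_mul]
  linarith

theorem lb0 : SLB0 := by
  intro m lg Γ _ _ O b N β _ B z l hz
  refine ge_of_tendsto' (B.lim z _ hz) fun T => ?_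
  have e : nz z = z := by simp [nz, hz]
  have k := N.had.hinge z.1 l ((T : ℝ) • z.2)
  rw [N.jac.scale, mul_one] at k
  have k1 := real_inner_le_norm z.2 ((T : ℝ) • z.2 - l)
  rw [hz, one_mul, inner_sub_right, real_inner_smul_right, real_inner_self_eq_norm_sq, hz,
    norm_sub_rev] at k1
  simp only [bt, e]
  have k2 : ‖l - (T : ℝ) • z.2‖ ≤ ‖lg ((m.Z 1 (z.1, l)).1, (m.Z T z).1)‖ := k
  linarith

end

end Pool.Agent.MP_3ee8cb_gt.T0
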