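import Pool.Agent.MP_3ee8cb_gt.T0.Spec

/-! Asymptotic geodesics approach exponentially. -/

namespace Pool.Agent.MP_3ee8cb_gt.T0

open DN (Dim dm)
open Set Filter Topology Real DN DNC0 DNB2
open scoped RealInnerProductSpace

namespace RDEC

theorem integ {D G : ℝ → ℝ} {K a T : ℝ} (ha : 0 < a) (hK : 0 ≤ K)
    (hG : ∀ t, HasDerivAt (fun t => D t ^ 2 / 2) (G t) t)
    (hb : ∀ t, T ≤ t → -(D t * (K * exp (-(a * t)))) ≤ G t) (lim : Tendsto D atTop (𝓝 0))
    (t : ℝ) (ht : T ≤ t) : D t ≤ K / a * exp (-(a * t)) := by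
  refine le_of_forall_pos_le_add fun ε hε => ?_
  have hp : ∀ s, 0 < 2 * (D s ^ 2 / 2) + ε ^ 2 := fun s => by positivity
  have hl : ∀ s, D s ≤ √(2 * (D s ^ 2 / 2) + ε ^ 2) := fun s =>
    Real.le_sqrt_of_sq_le (by nlinarith [sq_nonneg ε])
  have hf : ∀ s, HasDerivAt (fun s => √(2 * (D s ^ 2 / 2) + ε ^ 2) - K / a * exp (-(a * s)))
      (2 * G s / (2 * √(2 * (D s ^ 2 / 2) + ε ^ 2)) - K / a * (exp (-(a * s)) * -(a * 1))) s :=
    fun s => ((((hG s).const_mul 2).add_const (ε ^ 2)).sqrt (hp s).ne').sub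
      ((((hasDerivAt_id s).const_mul a).neg.exp).const_mul (K / a))
  have mo : MonotoneOn (fun s => √(2 * (D s ^ 2 / 2) + ε ^ 2) - K / a * exp (-(a * s)))
      (Ici T) := by
    refine monotoneOn_of_deriv_nonneg (convex_Ici T)
      (fun s _ => (hf s).continuousAt.continuousWithinAt)
      (fun s _ => (hf s).differentiableAt.differentiableWithinAt) fun s hs => ?_
    rw [(hf s).deriv]
    have h1 := hb s (interior_subset hs)
    have h2 := Real.sqrt_pos.2 (hp s)
    have h3 : 0 ≤ K * exp (-(a * s)) := by positivity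
    have h4 : K / a * (exp (-(a * s)) * -(a * 1)) = -(K * exp (-(a * s))) := by
      field_simp
    have h5 : -(K * exp (-(a * s))) ≤ 2 * G s / (2 * √(2 * (D s ^ 2 / 2) + ε ^ 2)) := by
      rw [le_div_iff₀ (by positivity)]
      nlinarith [mul_le_mul_of_nonneg_right (hl s) h3]
    linarith
  have l1 : Tendsto (fun s => √(2 * (D s ^ 2 / 2) + ε ^ 2)) atTop
      (𝓝 √(2 * ((0 : ℝ) ^ 2 / 2) + ε ^ 2)) :=
    ((((lim.pow 2).div_const 2).const_mul 2).add_const (ε ^ 2)).sqrt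
  have e1 : √(2 * ((0 : ℝ) ^ 2 / 2) + ε ^ 2) = ε := by
    rw [show 2 * ((0 : ℝ) ^ 2 / 2) + ε ^ 2 = ε ^ 2 by ring, Real.sqrt_sq hε.le]
  rw [e1] at l1
  have k : √(2 * (D t ^ 2 / 2) + ε ^ 2) - K / a * exp (-(a * t)) ≤ ε := by
    refine ge_of_tendsto l1 ?_
    filter_upwards [eventually_ge_atTop t] with s hs
    have h1 := mo ht (ht.trans hs) hs
    have h2 : 0 ≤ K / a * exp (-(a * s)) := by positivity
    dsimp only at h1
    linarith
  linarith [hl t]

theorem der_le {f : ℝ → ℝ} {d : ℝ} (hf : HasDerivAt f d 0) (h : ∀ r, 0 ≤ r → f r ≤ f 0) :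
    d ≤ 0 := by
  refine le_of_tendsto hf.tendsto_slope_zero_right ?_
  filter_upwards [self_mem_nhdsWithin] with r hr
  have hr' : 0 < r := hr
  rw [zero_add, smul_eq_mul]
  exact mul_nonpos_of_nonneg_of_nonpos (inv_nonneg.2 hr'.le) (sub_nonpos.2 (h r hr'.le))

variable [Dim]

theorem der {m : MF} {lg : W → V} (o : m.OK) (h : m.Had lg) (p q : W) (t : ℝ) :
    HasDerivAt (fun s => df m lg p q s ^ 2 / 2)
      (-⟪lg ((m.Z t p).1, (m.Z t q).1), (m.Z t p).2⟫ -
        ⟪lg ((m.Z t q).1, (m.Z t p).1), (m.Z t q).2⟫) t := by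
  have c : ∀ z : W, HasDerivAt (fun s => (m.Z s z).1) (m.R (m.Z t z).1 (m.Z t z).2) t := fun z =>
    (ContinuousLinearMap.fst ℝ V V).hasFDerivAt.comp_hasDerivAt t (o.ode z t)
  have d : Differentiable ℝ fun q : W => ‖lg q‖ ^ 2 / 2 :=
    ((h.c1.norm_sq ℝ).div_const 2).differentiable one_ne_zero
  have k := (d ((m.Z t p).1, (m.Z t q).1)).hasFDerivAt.comp_hasDerivAt t ((c p).prodMk (c q))
  rw [h.grad, o.SR, o.SR] at k
  exact k

end RDEC

variable [Dim]

theorem dec : SDEC := by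
  intro m lg Γ _ _ O b h β e cv kit hb lb x2 as he
  obtain ⟨C, α, t₁, hC, hα, x2⟩ := x2
  have o := h.ok
  have bs := kit.bs
  have nZ := h.jac.norm
  have nf : ∀ z : W, ‖(fl z).2‖ = ‖z.2‖ := fun z => norm_neg z.2
  have f1 : ∀ (s : ℝ) (z : W), (m.Z s (fl z)).1 = (m.Z (-s) z).1 := fun s z => by
    rw [bs.flip]
    rfl
  refine ⟨(1 + 2 * C * exp α) / (α / 2), α / 2, max t₁ 0 + 1, by positivity, by positivity,
    fun z q hz hq fw h0 => ?_⟩
  have sy : df m lg q z = df m lg z q := funext fun s => bs.symm _ _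
  have lim : Tendsto (df m lg z q) atTop (𝓝 0) := sy ▸ fw
  have D0 : ∀ s, 0 ≤ df m lg z q s := fun s => norm_nonneg _
  have Db : ∀ t, 0 ≤ t → df m lg z q t ≤ e / 2 := fun t ht => by
    have k : df m lg z q t ≤ max (df m lg z q 0) 0 := by
      refine ge_of_tendsto (tendsto_const_nhds.max lim) ?_
      filter_upwards [eventually_ge_atTop t] with s hs
      exact (cv z q).le_max_of_mem_Icc (mem_univ _) (mem_univ _) ⟨ht, hs⟩
    exact k.trans (max_le h0 (by positivity))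
  have zb : ∀ t, m.Z (-t) (fl z) = fl (m.Z t z) := fun t => by rw [bs.flip, neg_neg]
  have nb : ∀ t, ‖(fl (m.Z t z)).2‖ = 1 := fun t => by rw [nf, nZ, hz]
  have sh : ∀ t y, β (fl (m.Z t z)) y = β (fl z) y - t := fun t y => by
    rw [← zb, hb.shift _ _ _ ((nf z).trans hz)]
    ring
  have E0 : ∀ t, 0 ≤ β (fl z) (m.Z t q).1 - t := fun t => by
    have k := hb.opp z (m.Z t q).1 hz
    rw [← hb.top q z hq hz fw, hb.self q t hq] at k
    linarith
  have E1 : ∀ t, β (fl z) (m.Z t q).1 - t ≤ df m lg z q t := fun t => by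
    have k := hb.lip _ (m.Z t q).1 (m.Z 0 (fl (m.Z t z))).1 (nb t)
    rw [hb.self _ 0 (nb t), o.zero, sh, bs.symm] at k
    have k' : β (fl z) (m.Z t q).1 - t - -0 ≤ df m lg z q t := k
    linarith
  have ex : ∀ t, 0 ≤ t → ∃ n : V, ‖n‖ = 1 ∧
      (∀ r, 0 ≤ r → df m lg (fl (m.Z t z)) ((m.Z t q).1, n) r ≤ df m lg z q t) ∧
      Fw m lg (m.Z (β (fl z) (m.Z t q).1 - t) ((m.Z t q).1, n)) (fl (m.Z t z)) := fun t ht => by
    have k := as (fl (m.Z t z)) (m.Z t q).1 (nb t) ((Db t ht).trans (by linarith))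
    rw [sh] at k
    exact k
  have Ee : ∀ t, max t₁ 0 ≤ t → β (fl z) (m.Z t q).1 - t ≤ C * exp (-(α * t)) := fun t ht => by
    have ht0 : 0 ≤ t := (le_max_right _ _).trans ht
    obtain ⟨n, hn, hd, hw⟩ := ex t ht0
    have c0 := E0 t
    have c1 := E1 t
    generalize β (fl z) (m.Z t q).1 - t = c at hw c0 c1 ⊢
    set w : W := ((m.Z t q).1, n) with hwd
    have nw : ‖w.2‖ = 1 := hn
    have np : ‖(m.Z (-t - c) (fl w)).2‖ = 1 := by rw [nZ, nf, nw]
    have ed : ∀ r, df m lg (m.Z (-t - c) (fl w)) z r =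
        df m lg (m.Z c w) (fl (m.Z t z)) (t - r) := fun r => by
      unfold df
      rw [← o.add, f1, f1, ← o.add, ← o.add, show -(r + (-t - c)) = t - r + c by ring,
        show -(t - r) + t = r by ring]
    have bw : Bw m lg (m.Z (-t - c) (fl w)) z := by
      unfold Bw
      rw [funext ed]
      have hw' : Tendsto (df m lg (m.Z c w) (fl (m.Z t z))) atTop (𝓝 0) := hw
      have ht' : Tendsto (fun r : ℝ => t - r) atBot atTop :=
        (tendsto_atTop_add_const_left _ t tendsto_neg_atBot_atTop).congr fun r => by ring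
      exact hw'.comp ht'
    have k := x2 z _ q t hz np hq ((le_max_left _ _).trans ht) fw bw
      (fun r hr => by rw [sy]; exact (Db r hr).trans (by linarith)) (fun r hr => by
        have a1 := h.had.tri (m.Z (t - r + c) w).1 (m.Z (t - r) w).1
          (m.Z (t - r) (fl (m.Z t z))).1
        have a2 : ‖lg ((m.Z (t - r) w).1, (m.Z (t - r) (fl (m.Z t z))).1)‖ ≤ df m lg z q t := by
          rw [bs.symm]
          exact hd (t - r) (sub_nonneg.2 hr)
        rw [bs.geo, nw, add_sub_cancel_left, abs_of_nonneg c0] at a1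
        rw [ed]
        unfold df at *
        rw [← o.add]
        linarith [Db t ht0]) (m.Z t q).1
    have e1 : β (m.Z (-t - c) (fl w)) (m.Z t q).1 = -(t + c) := by
      rw [← hb.self _ (t + c) np, ← o.add, show t + c + (-t - c) = 0 by ring, o.zero]
      rfl
    have e2 : β (fl q) (m.Z t q).1 = - -t := by
      rw [← hb.self _ (-t) ((nf q).trans hq), f1, neg_neg]
    rw [e1, e2] at k
    linarith
  refine RDEC.integ (K := 1 + 2 * C * exp α) (a := α / 2) (by positivity) (by positivity)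
    (RDEC.der o h.had z q) (fun t ht => ?_) lim
  have ht0 : 0 ≤ t := by linarith [le_max_right t₁ 0]
  obtain ⟨n, hn, hd, hw⟩ := ex t ht0
  set w : W := ((m.Z t q).1, n) with hwd
  have nw : ‖w.2‖ = 1 := hn
  have a1 : -⟪n, -(m.Z t q).2⟫ ≤ β w (m.Z 1 (fl (m.Z t q))).1 := lb w (-(m.Z t q).2) nw
  have a2 := hb.top _ _ ((nZ _ _).trans nw) (nb t) hw (m.Z (t - 1) q).1
  rw [hb.shift _ _ _ nw, sh] at a2
  rw [f1, ← o.add, show -1 + t = t - 1 by ring, inner_neg_right] at a1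
  have a3 := Ee (t - 1) (by linarith)
  have a4 : exp (-(α * (t - 1))) = exp α * exp (-(α / 2 * t)) ^ 2 := by
    rw [← Real.exp_nat_mul, ← Real.exp_add]
    congr 1
    push_cast
    ring
  have a5 : ‖n + (m.Z t q).2‖ ≤ (1 + 2 * C * exp α) * exp (-(α / 2 * t)) := by
    refine (pow_le_pow_iff_left₀ (norm_nonneg _) (by positivity) two_ne_zero).1 ?_
    rw [norm_add_sq_real, hn, nZ, hq, mul_pow]
    rw [a4] at a3
    have c1 : 0 ≤ C * exp α := by positivity
    have c2 : 2 * (C * exp α) ≤ (1 + 2 * C * exp α) ^ 2 := by nlinarith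
    have c3 := mul_le_mul_of_nonneg_right c2 (sq_nonneg (exp (-(α / 2 * t))))
    linarith [E0 t]
  have b1 := RDEC.der_le (RDEC.der o h.had (fl (m.Z t z)) w 0) fun r hr => by
    have k := hd r hr
    have k0 : df m lg (fl (m.Z t z)) w 0 = df m lg z q t := by
      unfold df
      rw [o.zero, o.zero]
      rfl
    have k1 : 0 ≤ df m lg (fl (m.Z t z)) w r := norm_nonneg _
    rw [k0]
    gcongr
  rw [o.zero, o.zero] at b1
  have b2 : -⟪lg ((m.Z t z).1, (m.Z t q).1), -(m.Z t z).2⟫ -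
      ⟪lg ((m.Z t q).1, (m.Z t z).1), n⟫ ≤ 0 := b1
  have b3 := real_inner_le_norm (lg ((m.Z t q).1, (m.Z t z).1)) (n + (m.Z t q).2)
  rw [inner_add_right, bs.symm] at b3
  rw [inner_neg_right] at b2
  have b4 := mul_le_mul_of_nonneg_left a5 (D0 t)
  unfold df at *
  linarith

end Pool.Agent.MP_3ee8cb_gt.T0
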