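import Pool.Agent.MP_3ee8cb_gt.T0.Spec

/-! Consequences of the exponential hinge inequality. -/

namespace Pool.Agent.MP_3ee8cb_gt.T0

open Set Filter Topology Real
open CR (Met UT dd ng bus MinP Riem)

namespace RFAR

variable {n : ℕ} {g : Met n}

theorem nonneg (hg : Riem g) (x v : CR.E n) : 0 ≤ g x v v := by
  by_cases h : v = 0
  · simp [h]
  · exact (hg.pos x v h).le

theorem cs (hg : Riem g) (p q : UT g) (e : p.1.1 = q.1.1) :
    g p.1.1 p.1.2 q.1.2 ≤ 1 ∧ -1 ≤ g p.1.1 p.1.2 q.1.2 := by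
  have hp := p.2
  have hq := q.2
  rw [← e] at hq
  have h1 := nonneg hg p.1.1 (p.1.2 - q.1.2)
  have h2 := nonneg hg p.1.1 (p.1.2 + q.1.2)
  have hs := hg.symm p.1.1 q.1.2 p.1.2
  simp only [map_sub, map_add, sub_apply, add_apply, hp, hq, hs] at h1 h2
  constructor <;> linarith

theorem num (Y Z D D' : ℝ) (h1 : 1 ≤ Y * Z) (h2 : D * D' = 1) (h3 : 1 ≤ D) (h4 : D' ≤ 1)
    (h5 : Y + Z ≤ D + D') : Y ≤ D := by
  by_contra h
  have h := not_le.1 h
  have a1 : 0 < (Y - D) * (Y - D') := mul_pos (by linarith) (by linarith)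
  have a2 : Y * (Y + Z) ≤ Y * (D + D') := mul_le_mul_of_nonneg_left h5 (by linarith)
  nlinarith

theorem hin_num (s t d c : ℝ) (hd : 0 ≤ d) (c1 : c ≤ 1) (c2 : -1 ≤ c)
    (h : cosh s * cosh t - c * (sinh s * sinh t) ≤ cosh d) :
    exp s * (cosh t - c * sinh t) ≤ exp d := by
  have e1 : exp s * exp (-s) = 1 := by rw [← exp_add]; simp
  have e2 : exp d * exp (-d) = 1 := by rw [← exp_add]; simp
  have e3 := cosh_sq t
  refine num _ (exp (-s) * (cosh t + c * sinh t)) _ (exp (-d)) ?_ e2 (one_le_exp hd)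
    (exp_le_one_iff.2 (by linarith)) ?_
  · have : exp s * (cosh t - c * sinh t) * (exp (-s) * (cosh t + c * sinh t)) =
        exp s * exp (-s) * (cosh t ^ 2 - c ^ 2 * sinh t ^ 2) := by ring
    rw [this, e1, e3]
    have := mul_nonneg (mul_nonneg (sub_nonneg.2 c1) (by linarith : 0 ≤ 1 + c)) (sq_nonneg (sinh t))
    nlinarith
  · rw [cosh_eq s, sinh_eq s, cosh_eq d] at h
    linarith

theorem ang (a δ c : ℝ) (ha : 0 < a) (h0 : 0 ≤ δ) (h1 : 2 * a * δ ≤ 1) (c1 : c ≤ 1)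
    (h : cosh a - c * sinh a ≤ exp (2 * a * δ - a)) : 1 - 4 * δ ≤ c := by
  have e0 : 0 ≤ 2 * a * δ := by positivity
  have e1 := abs_exp_sub_one_le (x := 2 * a * δ) (by rw [abs_of_nonneg e0]; exact h1)
  rw [abs_of_nonneg e0] at e1
  have e2 := (abs_le.1 e1).2
  have e3 : exp (2 * a * δ - a) = exp (-a) * exp (2 * a * δ) := by rw [← exp_add]; ring_nf
  have e4 : exp (-a) ≤ 1 := exp_le_one_iff.2 (by linarith)
  have e5 := cosh_sub_sinh a
  have e6 : a ≤ sinh a := self_le_sinh_iff.2 ha.le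
  have e7 : 0 ≤ exp (2 * a * δ) - 1 := sub_nonneg.2 (one_le_exp e0)
  have e8 := mul_le_mul_of_nonneg_right e4 e7
  have e9 := mul_le_mul_of_nonneg_left e6 (sub_nonneg.2 c1)
  have : (1 - c) * a ≤ 4 * δ * a := by nlinarith
  have := le_of_mul_le_mul_right this ha
  linarith

theorem low (x : ℝ) (h0 : 0 ≤ x) (h1 : x ≤ 1 / 2) : exp (-(2 * x)) ≤ 1 - x := by
  have e1 : exp (-(2 * x)) * exp (2 * x) = 1 := by rw [← exp_add]; simp
  have e2 := add_one_le_exp (2 * x)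
  have e3 := mul_le_mul_of_nonneg_left e2 (exp_pos (-(2 * x))).le
  by_contra h
  have h := not_le.1 h
  have := mul_lt_mul_of_pos_right h (by linarith : 0 < 2 * x + 1)
  nlinarith

end RFAR

open RFAR

theorem hin : SHIN := by
  intro n g Γ _ _ Φ q a ha hh p p' e s t hs ht
  have c := cs q.rp.riem p p' e
  exact hin_num _ _ _ _ (mul_nonneg ha.le (q.rp.db.nonneg _ _)) c.1 c.2 (hh p p' e s t hs ht)

theorem far : SFAR := by
  intro n g Γ _ _ Φ q a ha mn hm
  refine ⟨1 + 8 / a, min (1 / (2 * a)) (1 / 8), by positivity, by positivity, ?_⟩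
  intro δ j w w' h0 h1 hj d0 d1
  have db := q.rp.db
  have k1 : 2 * a * δ ≤ 1 := by
    have := h1.trans (min_le_left _ _)
    rw [le_div_iff₀ (by positivity)] at this
    linarith
  have k2 : δ ≤ 1 / 8 := h1.trans (min_le_right _ _)
  obtain ⟨p, hp, hB⟩ := q.rp.hr w.1.1 (Φ j w').1.1
  set b := dd g w.1.1 (Φ j w').1.1 with hb
  have b0 : 0 ≤ b := db.nonneg _ _
  have m0 := mn w' 0 j
  have m1 := mn w' j 1
  rw [q.rp.flow.zero, abs_of_nonpos (by linarith)] at m0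
  rw [abs_of_nonneg (by linarith)] at m1
  have t0 := db.tri w'.1.1 w.1.1 (Φ j w').1.1
  have t1 := db.tri (Φ j w').1.1 (Φ 1 w').1.1 (Φ 1 w).1.1
  rw [db.symm w'.1.1 w.1.1] at t0
  rw [db.symm (Φ 1 w').1.1 (Φ 1 w).1.1] at t1
  have c := cs q.rp.riem p w hp
  set c₀ := g p.1.1 p.1.2 w.1.2 with hc
  have H1 := hm p w hp b 1 b0 zero_le_one
  have H2 := hm p (ng w) hp b j b0 (by linarith)
  rw [hB, mul_one] at H1
  have e : g p.1.1 p.1.2 (ng w).1.2 = -c₀ := by simp [ng, hc]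
  have e' : (Φ j (ng w)).1.1 = (Φ (-j) w).1.1 := by rw [q.rp.fl.rev]; rfl
  rw [hB, e, e', db.symm] at H2
  have A : 1 - 4 * δ ≤ c₀ := by
    refine ang a δ c₀ ha h0 k1 c.1 (le_of_mul_le_mul_left (H1.trans ?_) (exp_pos (a * b)))
    rw [← exp_add, exp_le_exp]
    have : dd g (Φ j w').1.1 (Φ 1 w).1.1 ≤ b + 2 * δ - 1 := by linarith
    have := mul_le_mul_of_nonneg_left this ha.le
    linarith
  have B := (low (4 * δ) (by linarith) (by linarith)).trans A
  have C : exp (-(2 * (4 * δ))) * exp (a * j) ≤ cosh (a * j) - -c₀ * sinh (a * j) := by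
    have := mul_le_mul_of_nonneg_right B (exp_pos (a * j)).le
    have h2 := mul_le_mul_of_nonneg_right c.1 (cosh_pos (a * j)).le
    refine this.trans ?_
    rw [← cosh_add_sinh]
    linarith
  have D := (mul_le_mul_of_nonneg_left C (exp_pos (a * b)).le).trans H2
  rw [← exp_add, ← exp_add, exp_le_exp] at D
  refine le_of_mul_le_mul_left (le_trans ?_ D) ha
  have : a * (2 * j - (1 + 8 / a) * δ) = a * (j - δ) + a * j - 8 * δ := by field_simp; ring
  have h3 := mul_le_mul_of_nonneg_left (by linarith : j - δ ≤ b) ha.le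
  linarith

theorem nm : SNM := by
  intro n g Γ _ _ Φ q bp ⟨K, δ₀, hK, h₀, H⟩
  refine ⟨K, δ₀, hK, h₀, fun δ w w' h0 h1 d0 d1 x => ?_⟩
  refine ge_of_tendsto ((bp.lim w' x).add (bp.lim (ng w) x)) ?_
  filter_upwards [eventually_ge_atTop (1 : ℝ)] with j hj
  have e' : (Φ j (ng w)).1.1 = (Φ (-j) w).1.1 := by rw [q.rp.fl.rev]; rfl
  have t := q.rp.db.tri (Φ (-j) w).1.1 x (Φ j w').1.1
  rw [q.rp.db.symm _ x] at t
  have := H δ j w w' h0 h1 hj d0 d1
  rw [e']
  linarith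

theorem lbe : SLBE := by
  intro n g Γ _ _ Φ q a _ bp hm p p' e L hL
  refine ge_of_tendsto ((bp.lim p (Φ L p').1.1).const_mul a).rexp ?_
  filter_upwards [eventually_ge_atTop (0 : ℝ)] with s hs
  refine le_of_mul_le_mul_left ((hm p p' e s L hs hL).trans ?_) (exp_pos (a * s))
  rw [← exp_add, q.rp.db.symm]
  exact le_of_eq (by ring_nf)

end Pool.Agent.MP_3ee8cb_gt.T0
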