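import Pool.Agent.MP_3ee8cb_gt.T0.Spec
import Pool.Agent.MP_3ee8cb_gt.DNFL.HHAD
import Pool.Agent.MP_3ee8cb_gt.DNOD.DiaG

/-! The logarithm of a space of nonpositive curvature. -/

namespace Pool.Agent.MP_3ee8cb_gt.T0

open DN (Dim dm)

variable [Dim]

open DN DNFL Set Filter Topology
open CR (Met UT Riem dd MinP)
open scoped RealInnerProductSpace

namespace RHAD

/-- Every Jacobi field in nonpositive curvature, along a geodesic of any speed. -/
theorem fld0 {m : MF} (h : m.OK) (hj : m.Jac) (hu : m.Up 0) (z ξ : V × V) :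
    Dia.Fld 0 (m.J z ξ) (m.J' z ξ) := by
  refine ⟨fun s hs => ?_, fun t => ?_, fun t => ⟨_, (hj.d1 z ξ t).inner ℝ (hj.d2 z ξ t), ?_⟩⟩
  · have := hj.d1 z ξ s
    rwa [hs, map_zero, sub_zero] at this
  · refine (hj.d1 z ξ t).norm_sq.congr_deriv ?_
    rw [inner_sub_right, real_inner_comm (m.w z t _), MF.w, Dia.skew0 h, sub_zero]
  · have h1 := hu (m.Z t z).1 (m.J z ξ t) (m.Z t z).2
    rw [inner_sub_right, inner_sub_left, inner_neg_right, real_inner_self_eq_norm_sq, MF.w, h.skew,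
      real_inner_comm (m.K _ _ _ _)]
    linarith

theorem exp0 {m : MF} (o : m.OK) (j : m.Jac) (u : m.Up 0) (y b e : V) :
    ‖e‖ ≤ ‖m.J (y, b) (0, e) 1‖ := by
  obtain ⟨z1, z2⟩ := Dia.J_zero o (y, b) (0, e)
  have h1 := (fld0 o j u (y, b) (0, e)).grow (s := 0) (t := 1) (by rw [z1]; simp [MF.hor])
    zero_le_one
  rw [z2] at h1
  simpa [MF.ver] using h1

theorem exb0 {h : Met dm} {C : TB.Chr dm} {Ψ : ℝ → UT h → UT h} {m : MF} (r : Riem h) (o : m.OK)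
    (j : m.Jac) (k : Lk h C Ψ m) (u : m.Up 0) : ExB m := by
  refine ⟨fun y => ?_, exp0 o j u⟩
  have c1 : ContDiff ℝ 1 (m.Z 1) := o.cZ.comp (contDiff_const.prodMk contDiff_id)
  have d : TB.ExdP h y fun ξ => (m.Z 1 (y, m.S y ξ)).1 := fun ξ => by
    have h1 : HasStrictFDerivAt (m.Z 1) (fderiv ℝ (m.Z 1) (y, m.S y ξ)) (y, m.S y ξ) :=
      c1.contDiffAt.hasStrictFDerivAt one_ne_zero
    have h2 : HasStrictFDerivAt (fun ξ : V => (y, m.S y ξ))
        ((0 : V →L[ℝ] V).prod (m.S y)) ξ :=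
      (hasStrictFDerivAt_const y ξ).prodMk (m.S y).hasStrictFDerivAt
    refine ⟨_, (h1.comp ξ h2).fst, fun η => ?_⟩
    rw [HEXB.sq o k, HEXB.sq o k]
    exact pow_le_pow_left₀ (norm_nonneg _) (exp0 o j u y (m.S y ξ) (m.S y η)) 2
  obtain ⟨σ, -, s2, s3⟩ := TB.sec dm _ (TB.ray dm h y _ r d)
  refine ⟨fun b b' hb => ?_, fun x => ⟨m.S y (σ x), s3 x⟩⟩
  have h1 := s2 (m.R y b)
  have h2 := s2 (m.R y b')
  simp only [o.SR] at h1 h2
  have h3 : m.R y b = m.R y b' := by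
    rw [← h1, ← h2]
    exact congrArg σ hb
  rw [← o.SR y b, h3, o.SR]

end RHAD

open RHAD in
/-- The logarithm, and all geodesics realise the distance. -/
theorem had0 : SHAD0 := by
  intro h C Λ _ _ Ψ q c m o j k u
  have e := exb0 q.rp.riem o j k u
  obtain ⟨lg, l⟩ := lg_ m o e
  obtain ⟨g1, g2⟩ := grad m lg o j l
  obtain ⟨d1, d2⟩ := dist_ h C Λ Ψ q c m lg o j k e l
  refine ⟨⟨lg, ⟨l.c1, l.ex, l.xe, g1, fun x y z => ?_, fun y b b' => ?_, g2⟩, d2⟩,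
    fun p s t => le_antisymm (q.rp.fl.lip p s t) ?_⟩
  · rw [d2, d2, d2]
    exact q.rp.db.tri x y z
  · rw [d2]
    exact d1 y b b'
  · have h1 := d1 p.1.1 (s • m.S p.1.1 p.1.2) (t • m.S p.1.1 p.1.2)
    have h2 : ‖m.S p.1.1 p.1.2‖ = 1 := by
      have := HEXB.sq o k p.1.1 p.1.2
      rw [p.2] at this
      exact (pow_eq_one_iff_of_nonneg (norm_nonneg _) two_ne_zero).1 this.symm
    rw [j.scale, j.scale, mul_one, mul_one, k.flow, k.flow, ← sub_smul, norm_smul, h2,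
      mul_one] at h1
    exact h1

end Pool.Agent.MP_3ee8cb_gt.T0
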