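import Pool.Agent.MP_3ee8cb_gt.T0.Spec
import Pool.Agent.MP_3ee8cb_gt.PXH.Hess

/-! Uniformly convex spheres give the exponential hinge inequality. -/

namespace Pool.Agent.MP_3ee8cb_gt.T0

open DN (Dim dm)

variable [Dim]

open Set Real DN DNC0 DNB2
open scoped RealInnerProductSpace

namespace RHF

variable {m : MF} {lg : V × V → V} {a : ℝ}

theorem jz (o : m.OK) (j : m.Jac) (l : m.Had lg) (z y e : V) {r : ℝ} (hr : r ≠ 0) :
    m.J (z, r⁻¹ • lg (z, y)) ((PXH.ze m lg z y e).1, r⁻¹ • (PXH.ze m lg z y e).2) r = 0 := by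
  have dZ : ∀ (t : ℝ) (w : V × V), HasFDerivAt (m.Z t) (fderiv ℝ (m.Z t) w) w := fun t w =>
    ((o.cZ.comp (contDiff_const.prodMk contDiff_id)).differentiable one_ne_zero _).hasFDerivAt
  have e1 : ∀ w : V × V, (m.Z r w).1 = (m.Z 1 (w.1, r • w.2)).1 := fun w => by
    rw [j.scale, mul_one]
  have e2 : r • r⁻¹ • lg (z, y) = lg (z, y) := smul_inv_smul₀ hr _
  have hs : HasFDerivAt (fun w : V × V => (w.1, r • w.2))
      ((ContinuousLinearMap.fst ℝ V V).prod (r • ContinuousLinearMap.snd ℝ V V))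
      (z, r⁻¹ • lg (z, y)) := hasFDerivAt_fst.prodMk (hasFDerivAt_snd.const_smul r)
  have h1 := ((dZ 1 (z, r • r⁻¹ • lg (z, y))).comp (z, r⁻¹ • lg (z, y)) hs).fst
  have h2 : (fun w : V × V => ((m.Z 1 ∘ fun w : V × V => (w.1, r • w.2)) w).1) =
      fun w => (m.Z r w).1 := funext fun w => (e1 w).symm
  rw [h2, e2] at h1
  have h3 := congrArg (fun T : V × V →L[ℝ] V =>
    T ((PXH.ze m lg z y e).1, r⁻¹ • (PXH.ze m lg z y e).2))
    ((dZ r (z, r⁻¹ • lg (z, y))).fst.unique h1)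
  have h4 : (fderiv ℝ (m.Z r) (z, r⁻¹ • lg (z, y))
      ((PXH.ze m lg z y e).1, r⁻¹ • (PXH.ze m lg z y e).2)).1 =
      (fderiv ℝ (m.Z 1) (z, lg (z, y))
        ((PXH.ze m lg z y e).1, r • r⁻¹ • (PXH.ze m lg z y e).2)).1 := h3
  rw [smul_inv_smul₀ hr, Prod.mk.eta] at h4
  have h5 : m.S (m.Z 1 (z, lg (z, y))).1
    (fderiv ℝ (m.Z 1) (z, lg (z, y)) (PXH.ze m lg z y e)).1 = 0 := PXH.j1 o l z y e
  change m.S (m.Z r (z, r⁻¹ • lg (z, y))).1 (fderiv ℝ (m.Z r) (z, r⁻¹ • lg (z, y))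
    ((PXH.ze m lg z y e).1, r⁻¹ • (PXH.ze m lg z y e).2)).1 = 0
  rw [h4, e1, e2, h5]

theorem unit (o : m.OK) (j : m.Jac) (l : m.Had lg) (h : An m a) {z y e : V}
    (h0 : lg (z, y) ≠ 0) (he : ⟪e, lg (z, y)⟫ = 0) (h1 : ‖e‖ = 1) :
    a * ‖lg (z, y)‖ ≤ ⟪PXH.H m lg z y e, e⟫ := by
  have rp : 0 < ‖lg (z, y)‖ := norm_pos_iff.2 h0
  have hh : m.hor (z, ‖lg (z, y)‖⁻¹ • lg (z, y))
      ((PXH.ze m lg z y e).1, ‖lg (z, y)‖⁻¹ • (PXH.ze m lg z y e).2) = e := o.SR z e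
  have hv : m.ver (z, ‖lg (z, y)‖⁻¹ • lg (z, y))
      ((PXH.ze m lg z y e).1, ‖lg (z, y)‖⁻¹ • (PXH.ze m lg z y e).2) =
      -(‖lg (z, y)‖⁻¹ • PXH.H m lg z y e) := by
    rw [PXH.H_eq, smul_neg, neg_neg, smul_add, ← map_smul (m.om z (m.R z e))]
    rfl
  have k := h (z, ‖lg (z, y)‖⁻¹ • lg (z, y))
    ((PXH.ze m lg z y e).1, ‖lg (z, y)‖⁻¹ • (PXH.ze m lg z y e).2) ‖lg (z, y)‖
    (by rw [norm_smul, norm_inv, norm_norm, inv_mul_cancel₀ rp.ne']) (by rw [hh, h1])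
    (by rw [hh, real_inner_smul_right, he, mul_zero]) rp (jz o j l z y e rp.ne')
  rw [hh, hv, inner_neg_left, neg_neg, real_inner_smul_left, ← div_eq_inv_mul,
    le_div_iff₀ rp] at k
  exact k

theorem perp (o : m.OK) (j : m.Jac) (l : m.Had lg) (h : An m a) {z y e : V}
    (h0 : lg (z, y) ≠ 0) (he : ⟪e, lg (z, y)⟫ = 0) :
    a * ‖lg (z, y)‖ * ‖e‖ ^ 2 ≤ ⟪PXH.H m lg z y e, e⟫ := by
  by_cases e0 : e = 0
  · simp [e0]
  have ep : 0 < ‖e‖ := norm_pos_iff.2 e0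
  have k := unit o j l h (e := ‖e‖⁻¹ • e) h0 (by rw [real_inner_smul_left, he, mul_zero])
    (by rw [norm_smul, norm_inv, norm_norm, inv_mul_cancel₀ ep.ne'])
  rw [PXH.H_smul, real_inner_smul_left, real_inner_smul_right] at k
  have k2 := mul_le_mul_of_nonneg_right k (sq_nonneg ‖e‖)
  refine k2.trans (le_of_eq ?_)
  field_simp

theorem hess (o : m.OK) (j : m.Jac) (l : m.Had lg) (h : An m a) {z y v : V}
    (h0 : lg (z, y) ≠ 0) (hv : ‖v‖ = 1) :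
    a * ‖lg (z, y)‖ * (1 - (⟪lg (z, y), v⟫ / ‖lg (z, y)‖) ^ 2) +
      (⟪lg (z, y), v⟫ / ‖lg (z, y)‖) ^ 2 ≤ ⟪PXH.H m lg z y v, v⟫ := by
  have rp : ‖lg (z, y)‖ ≠ 0 := norm_ne_zero_iff.2 h0
  obtain ⟨c, hc⟩ : ∃ c : ℝ, c = ⟪v, lg (z, y)⟫ / ‖lg (z, y)‖ ^ 2 := ⟨_, rfl⟩
  obtain ⟨e, he⟩ : ∃ e, e = v - c • lg (z, y) := ⟨_, rfl⟩
  have hp : ⟪e, lg (z, y)⟫ = 0 := by
    rw [he, inner_sub_left, real_inner_smul_left, real_inner_self_eq_norm_sq, hc,
      div_mul_cancel₀ _ (pow_ne_zero 2 rp), sub_self]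
  have ev : v = e + c • lg (z, y) := by rw [he, sub_add_cancel]
  have n1 : ‖e‖ ^ 2 + c ^ 2 * ‖lg (z, y)‖ ^ 2 = 1 := by
    have := norm_add_sq_real e (c • lg (z, y))
    rw [← ev, hv, real_inner_smul_right, hp, norm_smul, mul_pow, norm_eq_abs, sq_abs] at this
    linarith
  have n2 : (⟪lg (z, y), v⟫ / ‖lg (z, y)‖) ^ 2 = c ^ 2 * ‖lg (z, y)‖ ^ 2 := by
    rw [hc, real_inner_comm]
    field_simp
  have k := perp o j l h h0 hp
  have n3 : ⟪PXH.H m lg z y v, v⟫ = ⟪PXH.H m lg z y e, e⟫ + c ^ 2 * ‖lg (z, y)‖ ^ 2 := by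
    rw [ev, PXH.H_add, PXH.H_smul, PXH.H_rad o j l]
    simp only [inner_add_left, inner_add_right, real_inner_smul_left, real_inner_smul_right,
      PXH.rad o j l, hp, real_inner_comm e (lg (z, y)), real_inner_self_eq_norm_sq,
      norm_smul, mul_pow, norm_eq_abs, sq_abs]
    ring
  rw [n2, n3, show 1 - c ^ 2 * ‖lg (z, y)‖ ^ 2 = ‖e‖ ^ 2 by linarith]
  linarith

theorem ode1 (o : m.OK) (z : V × V) (t : ℝ) :
    HasDerivAt (fun s => (m.Z s z).1) (m.R (m.Z t z).1 (m.Z t z).2) t :=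
  (ContinuousLinearMap.fst ℝ V V).hasFDerivAt.comp_hasDerivAt t (o.ode z t)

theorem dlg (o : m.OK) (l : m.Had lg) (q : V) (z : V × V) (t : ℝ) :
    HasDerivAt (fun s => lg ((m.Z s z).1, q)) (-PXH.H m lg (m.Z t z).1 q (m.Z t z).2 -
      m.w z t (lg ((m.Z t z).1, q))) t :=
  ((l.c1.differentiable one_ne_zero _).hasFDerivAt.comp_hasDerivAt t
    ((ode1 o z t).prodMk (hasDerivAt_const t q))).congr_deriv (by
      rw [PXH.H_eq, neg_neg, MF.w, add_sub_cancel_right])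

theorem du (o : m.OK) (l : m.Had lg) (q : V) (z : V × V) (t : ℝ) :
    HasDerivAt (fun s => ⟪lg ((m.Z s z).1, q), (m.Z s z).2⟫)
      (-⟪PXH.H m lg (m.Z t z).1 q (m.Z t z).2, (m.Z t z).2⟫) t := by
  refine ((dlg o l q z t).inner ℝ (DNFL.RGRAD.vel o z t)).congr_deriv ?_
  rw [inner_sub_left, inner_neg_left, inner_neg_right, DNFL.RGRAD.w_skew o]
  ring

theorem dr (o : m.OK) (j : m.Jac) (l : m.Had lg) (q : V) (z : V × V) {t : ℝ}
    (h0 : lg ((m.Z t z).1, q) ≠ 0) :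
    HasDerivAt (fun s => ‖lg ((m.Z s z).1, q)‖)
      (-(⟪lg ((m.Z t z).1, q), (m.Z t z).2⟫ / ‖lg ((m.Z t z).1, q)‖)) t := by
  have rp : ‖lg ((m.Z t z).1, q)‖ ≠ 0 := norm_ne_zero_iff.2 h0
  have h1 := (dlg o l q z t).norm_sq.sqrt (pow_ne_zero 2 rp)
  simp only [sqrt_sq (norm_nonneg _)] at h1
  refine h1.congr_deriv ?_
  have a1 := DNFL.RGRAD.w_skew o z t (lg ((m.Z t z).1, q)) (lg ((m.Z t z).1, q))
  rw [real_inner_comm] at a1
  have a2 : ⟪lg ((m.Z t z).1, q), m.w z t (lg ((m.Z t z).1, q))⟫ = 0 := by linarith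
  rw [inner_sub_right, inner_neg_right, a2, real_inner_comm, PXH.rad o j l, real_inner_comm]
  field_simp
  ring

theorem mono (o : m.OK) (j : m.Jac) (l : m.Had lg) (h : An m a) (ha : 0 < a) (q : V)
    (z : V × V) (hz : ‖z.2‖ = 1) {t : ℝ} (ht : 0 ≤ t)
    (h0 : ∀ s ∈ Icc 0 t, lg ((m.Z s z).1, q) ≠ 0) :
    exp (a * ‖lg (z.1, q)‖) * (cosh (a * t) - ⟪lg (z.1, q), z.2⟫ / ‖lg (z.1, q)‖ * sinh (a * t)) ≤
      exp (a * ‖lg ((m.Z t z).1, q)‖) := by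
  have d : ∀ s ∈ Icc 0 t, ∃ D, 0 ≤ D ∧ HasDerivAt (fun s => exp (a * ‖lg ((m.Z s z).1, q)‖) *
      (cosh (a * (t - s)) - ⟪lg ((m.Z s z).1, q), (m.Z s z).2⟫ / ‖lg ((m.Z s z).1, q)‖ *
        sinh (a * (t - s)))) D s := fun s hs => by
    have rp : 0 < ‖lg ((m.Z s z).1, q)‖ := norm_pos_iff.2 (h0 s hs)
    have d1 := dr o j l q z (h0 s hs)
    have d2 : HasDerivAt (fun s => a * (t - s)) (-a) s := by
      simpa using ((hasDerivAt_id s).const_sub t).const_mul a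
    have d3 := (d1.const_mul a).exp.mul (d2.cosh.sub (((du o l q z s).div d1 rp.ne').mul d2.sinh))
    refine ⟨_, ?_, d3⟩
    have k := hess o j l h (h0 s hs) ((j.norm s z).trans hz)
    have s0 : 0 ≤ sinh (a * (t - s)) :=
      sinh_nonneg_iff.2 (mul_nonneg ha.le (sub_nonneg.2 hs.2))
    have y0 := exp_pos (a * ‖lg ((m.Z s z).1, q)‖)
    simp only [Pi.sub_apply, Pi.mul_apply, Pi.div_apply]
    generalize ‖lg ((m.Z s z).1, q)‖ = r at *
    generalize ⟪lg ((m.Z s z).1, q), (m.Z s z).2⟫ = u at *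
    generalize ⟪PXH.H m lg (m.Z s z).1 q (m.Z s z).2, (m.Z s z).2⟫ = H at *
    generalize sinh (a * (t - s)) = S at *
    generalize cosh (a * (t - s)) = C at *
    generalize exp (a * r) = Y at *
    have k2 : 0 ≤ Y * S * ((H - (a * r * (1 - (u / r) ^ 2) + (u / r) ^ 2)) / r) :=
      mul_nonneg (mul_nonneg y0.le s0) (div_nonneg (sub_nonneg.2 k) rp.le)
    refine k2.trans (le_of_eq ?_)
    field_simp
    ring
  have M := monotoneOn_of_deriv_nonneg (convex_Icc 0 t)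
    (fun s hs => (d s hs).choose_spec.2.continuousAt.continuousWithinAt)
    (fun s hs => (d s (interior_subset hs)).choose_spec.2.differentiableAt.differentiableWithinAt)
    (fun s hs => by
      rw [(d s (interior_subset hs)).choose_spec.2.deriv]
      exact (d s (interior_subset hs)).choose_spec.1)
    (left_mem_Icc.2 ht) (right_mem_Icc.2 ht) ht
  simpa only [o.zero, sub_zero, sub_self, mul_zero, cosh_zero, sinh_zero, mul_one] using M

end RHF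

open RHF in
theorem hf : SHF := by
  intro m lg Γ _ _ O b N a ha K h x p q hp hq s t hs ht
  have ex : ∀ (v : V) (r : ℝ), lg (x, (m.Z r (x, v)).1) = r • v := fun v r => by
    have := N.had.xe x (r • v)
    rwa [N.jac.scale, mul_one] at this
  have s0 : 0 ≤ sinh (a * t) := sinh_nonneg_iff.2 (mul_nonneg ha.le ht)
  rcases hs.eq_or_lt with rfl | sp
  · have c1 := abs_real_inner_le_norm p q
    rw [hp, hq, mul_one] at c1
    rw [N.ok.zero, ex, norm_smul, hq, mul_one, norm_of_nonneg ht, mul_zero, exp_zero, one_mul,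
      ← cosh_add_sinh]
    nlinarith [(abs_le.1 c1).1]
  by_cases h0 : ∀ r ∈ Icc 0 t, lg ((m.Z r (x, q)).1, (m.Z s (x, p)).1) ≠ 0
  · have k := mono N.ok N.jac N.had h ha _ (x, q) hq ht h0
    rw [K.bs.symm]
    rw [ex, norm_smul, hp, mul_one, norm_of_nonneg hs, real_inner_smul_left,
      mul_div_cancel_left₀ _ sp.ne'] at k
    exact k
  push Not at h0
  obtain ⟨r, hr, h0⟩ := h0
  have e1 : (m.Z r (x, q)).1 = (m.Z s (x, p)).1 := by
    have e2 := N.had.ex (m.Z r (x, q)).1 (m.Z s (x, p)).1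
    have e3 := N.had.ex (m.Z r (x, q)).1 (m.Z r (x, q)).1
    rw [K.bs.self] at e3
    rw [h0] at e2
    exact e3.symm.trans e2
  have e4 : r • q = s • p := by rw [← ex, ← ex, e1]
  have e5 : r = s := by
    have := congrArg norm e4
    rwa [norm_smul, norm_smul, hp, hq, mul_one, mul_one, norm_of_nonneg hr.1,
      norm_of_nonneg hs] at this
  subst e5
  have e6 : q = p := smul_right_injective V sp.ne' e4
  subst e6
  rw [real_inner_self_eq_norm_sq, hq, one_pow, one_mul, cosh_sub_sinh, ← exp_add]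
  refine exp_le_exp.2 ?_
  nlinarith [mul_nonneg ha.le (norm_nonneg (lg ((m.Z r (x, q)).1, (m.Z t (x, q)).1))),
    mul_nonneg ha.le (sub_nonneg.2 hr.2)]

end Pool.Agent.MP_3ee8cb_gt.T0
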