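import Pool.Agent.MP_3ee8cb_gt.T0.Spec
import Pool.Agent.MP_3ee8cb_gt.DNC0.RJf
import Pool.Agent.MP_3ee8cb_gt.DNOD.Fld

/-! Jacobi fields with a zero in the future. -/

namespace Pool.Agent.MP_3ee8cb_gt.T0

open DN (Dim dm)

variable [Dim]

open Set Filter Topology Real DN DNC0
open scoped RealInnerProductSpace

namespace RJB

variable {m : MF}

theorem fld (ok : m.OK) (jac : m.Jac) (up : m.Up 0) (z ξ : W) :
    Dia.Fld 0 (m.J z ξ) (m.J' z ξ) := by
  refine ⟨fun s hs => ?_, fun t => ?_, fun t => ⟨_, RJf.inn ok (jac.d1 z ξ t) (jac.d2 z ξ t), ?_⟩⟩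
  · have := jac.d1 z ξ s
    rwa [hs, map_zero, sub_zero] at this
  · have := RJf.inn ok (jac.d1 z ξ t) (jac.d1 z ξ t)
    simp only [real_inner_self_eq_norm_sq] at this
    refine this.congr_deriv ?_
    rw [real_inner_comm (m.J z ξ t) (m.J' z ξ t)]
    ring
  · have h1 := up (m.Z t z).1 (m.J z ξ t) (m.Z t z).2
    rw [inner_neg_right, real_inner_self_eq_norm_sq, real_inner_comm (m.K _ _ _ _)]
    linarith

theorem back (ok : m.OK) (jac : m.Jac) {b : ℝ} (hb : 0 < b) (up : m.Up 0) (dn : m.Dn (b ^ 2))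
    (z ξ : W) (hz : ‖z.2‖ = 1) : Monotone fun s => exp (2 * b * s) *
      (b ^ 2 * ⟪m.J z ξ s, m.J z ξ s⟫ + ⟪m.J' z ξ s, m.J' z ξ s⟫) := by
  have hd : ∀ s, ∃ d, 0 ≤ d ∧ HasDerivAt (fun s => exp (2 * b * s) *
      (b ^ 2 * ⟪m.J z ξ s, m.J z ξ s⟫ + ⟪m.J' z ξ s, m.J' z ξ s⟫)) d s := fun s => by
    have h1 := RJf.inn ok (jac.d1 z ξ s) (jac.d1 z ξ s)
    have h2 := RJf.inn ok (jac.d2 z ξ s) (jac.d2 z ξ s)
    have h3 := ((hasDerivAt_id s).const_mul (2 * b)).exp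
    refine ⟨_, ?_, h3.mul ((h1.const_mul (b ^ 2)).add h2)⟩
    have h4 := RJf.kbd jac hb up dn (m.Z s z).1 (m.J z ξ s) (-m.J' z ξ s) (m.Z s z).2
      (by rw [jac.norm, hz])
    rw [inner_neg_right, norm_neg] at h4
    have h5 : -(2 * b ^ 2 * ⟪m.J z ξ s, m.J' z ξ s⟫) ≤
        b * (b ^ 2 * ‖m.J z ξ s‖ ^ 2 + ‖m.J' z ξ s‖ ^ 2) := by
      have h6 := mul_le_mul_of_nonneg_left
        (neg_le_of_abs_le (abs_real_inner_le_norm (m.J z ξ s) (m.J' z ξ s)))
        (by positivity : 0 ≤ 2 * b ^ 2)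
      nlinarith [mul_nonneg hb.le (sq_nonneg (b * ‖m.J z ξ s‖ - ‖m.J' z ξ s‖))]
    simp only [id, inner_neg_left, inner_neg_right, real_inner_self_eq_norm_sq,
      real_inner_comm (m.J z ξ s) (m.J' z ξ s),
      real_inner_comm (m.K (m.Z s z).1 (m.J z ξ s) (m.Z s z).2 (m.Z s z).2) (m.J' z ξ s)]
    have h7 := exp_pos (2 * b * s)
    nlinarith
  choose d d0 hd using hd
  exact monotone_of_hasDerivAt_nonneg hd d0

end RJB

theorem jb : SJB := by
  intro m lg Γ _ _ O b w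
  have hb := w.b0
  refine ⟨√(exp (2 * b) * (b ^ 2 + 1)), sqrt_nonneg _, fun z ξ T hz hξ hT h0 => ?_⟩
  have F := RJB.fld w.ok w.jac w.up z ξ
  have j0 := RJf.J0 w.ok z ξ
  have j1 := RJf.J'0 w.ok z ξ
  refine ⟨?_, fun h1 t t0 tT => ?_⟩
  · have d := (F.n1 0).sqrt (by rw [j0, hξ]; norm_num)
    simp only [sqrt_sq (norm_nonneg _)] at d
    have k := F.convex.le_slope_of_hasDerivAt (mem_univ 0) (mem_univ T) hT d
    rw [slope_def_field, h0, j0, j1, hξ, norm_zero, sub_zero, real_inner_comm] at k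
    have e : (0 - 1) / T = -(1 / T) := by ring
    linarith
  · choose d h2 h3 using F.n2
    obtain ⟨s, hs, e⟩ := exists_hasDerivAt_eq_slope (fun t => ⟪m.J z ξ t, m.J' z ξ t⟫) d
      (lt_add_one t) (fun x _ => (h2 x).continuousAt.continuousWithinAt) fun x _ => h2 x
    have a1 := F.mono t0
    have a2 := F.mono (show t + 1 ≤ T by linarith)
    simp only [j0, j1, h0, inner_zero_left] at a1 a2
    rw [real_inner_comm] at h1
    rw [add_sub_cancel_left, div_one] at e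
    have a3 : ‖m.J' z ξ s‖ ^ 2 ≤ 1 := by nlinarith [h3 s]
    have a4 : ‖m.J z ξ s‖ ≤ 1 := by
      have := F.convex.le_max_of_mem_Icc (mem_univ 0) (mem_univ T)
        (show s ∈ Icc 0 T from ⟨t0.trans hs.1.le, by linarith [hs.2]⟩)
      simpa only [j0, hξ, h0, norm_zero, max_eq_left (zero_le_one' ℝ)] using this
    have a5 := mul_le_mul_of_nonneg_left (pow_le_one₀ (n := 2) (norm_nonneg _) a4) (sq_nonneg b)
    have a6 := RJB.back w.ok w.jac hb w.up w.dn z ξ hz hs.1.le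
    simp only [real_inner_self_eq_norm_sq] at a6
    have a7 : exp (2 * b * s) ≤ exp (2 * b * t) * exp (2 * b) := by
      rw [← exp_add]
      exact exp_le_exp.2 (by nlinarith [hs.2])
    have a8 : exp (2 * b * s) * (b ^ 2 * ‖m.J z ξ s‖ ^ 2 + ‖m.J' z ξ s‖ ^ 2) ≤
        exp (2 * b * t) * exp (2 * b) * (b ^ 2 + 1) :=
      mul_le_mul a7 (by linarith) (by positivity) (by positivity)
    rw [mul_assoc (exp (2 * b * t))] at a8
    exact sqrt_le_sqrt (le_of_mul_le_mul_left (a6.trans a8) (exp_pos _))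

end Pool.Agent.MP_3ee8cb_gt.T0
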