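import Pool.Agent.MP_3ee8cb_gt.T0.Spec
import Pool.Agent.MP_3ee8cb_gt.DNB2.Port
import Pool.Agent.MP_3ee8cb_gt.DNB2.RTelk

/-! Row KIT: the facts taken over from the negatively curved case. -/

namespace Pool.Agent.MP_3ee8cb_gt.T0

open DN (Dim dm)

variable [Dim]

open Set Filter Topology Real DN DNC0 DNB2
open scoped RealInnerProductSpace

namespace RKIT

variable {m : MF} {lg : W → V} {Γ : Type} [Group Γ] [MulAction Γ V] {O : Γ → V → V ≃ₗᵢ[ℝ] V}
  {b : ℝ}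

open RBs in
theorem bs (nw : N0 m lg Γ O b) : Bs m lg Γ := by
  have ok := nw.ok
  have jac := nw.jac
  have had := nw.had
  refine ⟨fun γ x y => ?_, fun x y => ?_, self ok jac had, fun z s t => ?_, fun t z => ?_,
    fun R => ?_, euc ok jac had, del ok jac had, loc ok jac had⟩
  · have h1 := nw.act.flow γ 1 (x, lg (x, y))
    have h2 := had.xe (γ • x) (O γ x (lg (x, y)))
    simp only [had.ex] at h1
    rw [h1] at h2
    simp only at h2
    rw [h2, LinearIsometryEquiv.norm_map]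
  · rw [had.rev x y, norm_neg, jac.norm]
  · have h1 : m.Z t z = m.Z (t - s) (m.Z s z) := by rw [← ok.add, sub_add_cancel]
    have h2 := ray jac (m.Z s z).1 (m.Z s z).2 (t - s)
    rw [h1, ← h2, had.xe, norm_smul, jac.norm, Real.norm_eq_abs, abs_sub_comm]
  · have h1 := jac.scale t (-1) z.1 z.2
    simp only [neg_smul, one_smul, neg_mul, one_mul] at h1
    exact h1
  · obtain ⟨A, -, hA⟩ := H38.bdd_ball (c1 ok 1).fst.continuous R
    refine ⟨A, fun x y hx hy => ?_⟩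
    have := hA (x, lg (x, y)) (by rw [Prod.norm_def]; exact max_le hx hy)
    rwa [had.ex] at this

theorem jf (w : N0 m lg Γ O b) (cv : Cv m lg) (bs : Bs m lg Γ) : Jf m lg 0 b := by
  refine ⟨RJf.grow w.ok w.jac w.b0 w.up w.dn, RJf.al w.ok w.jac, RJf.cvx w.ok w.jac w.up,
    RJf.tan w.ok, RJf.omb w.ok w.b0, fun A => ⟨1, le_rfl, fun y u u' _ _ R T h0 hT _ => ?_⟩⟩
  have z : df m lg (y, u) (y, u') 0 = 0 := by
    unfold df
    rw [w.ok.zero, w.ok.zero, bs.self, norm_zero]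
  have := (cv (y, u) (y, u')).le_max_of_mem_Icc (mem_univ 0) (mem_univ R)
    (⟨sub_nonneg.2 hT, sub_le_self R h0⟩ : R - T ∈ Icc 0 R)
  rw [z, max_eq_right (show 0 ≤ df m lg (y, u) (y, u') R from norm_nonneg _)] at this
  simpa using this

open RMov in
theorem mov (nw : N0 m lg Γ O b) (bs : Bs m lg Γ) (a : ℝ) : Mov m lg O a b := by
  intro γ k z ξ
  have o := nw.ok
  have act := nw.act
  have hdf : ∀ (q : W) (t : ℝ),
      df m lg (ac O γ (m.Z k z)) (ac O γ (m.Z k q)) t = df m lg z q (t + k) := by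
    intro q t
    unfold df
    rw [fl_ac act, fl_ac act, ← o.add, ← o.add]
    exact bs.eqv γ _ _
  refine ⟨?_, hdf, fun q ε T cl => ⟨⟨?_, ?_, fun j hj => ?_, ?_⟩, ?_⟩⟩
  · unfold nn
    rw [hor_ac act, ver_ac act, LinearIsometryEquiv.norm_map, LinearIsometryEquiv.norm_map]
  · change ‖O γ _ (m.Z k z).2‖ = 1
    rw [LinearIsometryEquiv.norm_map, nw.jac.norm, cl.nz]
  · change ‖O γ _ (m.Z k q).2‖ = 1
    rw [LinearIsometryEquiv.norm_map, nw.jac.norm, cl.nq]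
  · have := cl.le (j + k) (by omega)
    rw [hdf, mul_assoc, ← exp_add]
    push_cast at this
    rwa [show -(a * k) + -(a * j) = -(a * (j + k)) by ring]
  · have := cl.meet
    push_cast at this
    rw [fl_ac act, fl_ac act, ← o.add, ← o.add]
    exact congrArg (fun x => γ • x) this
  · have := cl.meet
    unfold en MF.J
    push_cast at this ⊢
    rw [chain1 o act, chain2 o, fl_ac act, fl_ac act, ← o.add, ← o.add, hor_ac act]
    change ⟪_, O γ (m.Z (T + k) q).1 (m.Z (T + k) q).2 -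
      O γ (m.Z (T + k) z).1 (m.Z (T + k) z).2⟫ = _
    rw [← this, ← map_sub, LinearIsometryEquiv.inner_map_map]

theorem step (nw : N0 m lg Γ O b) (jf : Jf m lg 0 b) : Step m O b := by
  intro R
  obtain ⟨B, B0, hB⟩ := H38.bdd_ball (H38.z_cd nw.ok 1).continuous R
  obtain ⟨c, c0, hc⟩ := H38.fin_bound (nw.fin (max R B)) (P := fun δ C => ∀ p q : W,
      ‖p‖ ≤ R → ‖q‖ ≤ R → ‖ac O δ (m.Z 1 q) - ac O δ (m.Z 1 p) -
        fderiv ℝ (ac O δ) (m.Z 1 p) (fderiv ℝ (m.Z 1) p (q - p))‖ ≤ C * ‖q - p‖ ^ 2)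
    (fun γ C C' h hP p q hp hq => (hP p q hp hq).trans (by gcongr))
    (fun γ => tel_comp nw.ok nw.qz (nw.qa γ) _)
  obtain ⟨d, d0, hd⟩ := jf.omb R
  refine ⟨d * c, by positivity, fun γ z q ξ hz hq hγ => ?_⟩
  have mem : γ ∈ {γ : Γ | ∃ x : V, ‖x‖ ≤ max R B ∧ ‖γ • x‖ ≤ max R B} :=
    ⟨_, le_max_of_le_right ((norm_fst_le _).trans (hB z hz)), le_max_of_le_left hγ⟩
  have e1 : om m z ξ (q - z) = om m (ac O γ (m.Z 1 z))
      (fderiv ℝ (ac O γ) (m.Z 1 z) (fderiv ℝ (m.Z 1) z ξ))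
      (fderiv ℝ (ac O γ) (m.Z 1 z) (fderiv ℝ (m.Z 1) z (q - z))) :=
    ((H38.om0_act nw.act γ _ _ _).trans (H38.om0_flow nw.jac 1 z ξ (q - z))).symm
  have e2 : ∀ z ξ η η' : W, om m z ξ η - om m z ξ η' = om m z ξ (η - η') := fun z ξ η η' =>
    (H38.om0_sub z ξ η η').symm
  have n1 : ‖ac O γ (m.Z 1 z)‖ ≤ R := by
    rw [Prod.norm_def]
    refine max_le hγ ?_
    simp only [ac, LinearIsometryEquiv.norm_map, nw.jac.norm]
    exact (norm_snd_le z).trans hz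
  have e3 : nn m b (ac O γ (m.Z 1 z)) (fderiv ℝ (ac O γ) (m.Z 1 z) (fderiv ℝ (m.Z 1) z ξ)) =
      nn m b (m.Z 1 z) (fderiv ℝ (m.Z 1) z ξ) := by
    have h1 := congrArg norm (nw.act.hor γ (m.Z 1 z) (fderiv ℝ (m.Z 1) z ξ))
    have h2 := congrArg norm (nw.act.ver γ (m.Z 1 z) (fderiv ℝ (m.Z 1) z ξ))
    rw [LinearIsometryEquiv.norm_map] at h1 h2
    unfold nn
    rw [← h1, ← h2]
    rfl
  rw [e1, e2]
  refine (hd _ _ _ n1).1.trans ?_
  rw [e3]
  have n0 : 0 ≤ nn m b (m.Z 1 z) (fderiv ℝ (m.Z 1) z ξ) := Real.sqrt_nonneg _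
  calc _ ≤ d * nn m b (m.Z 1 z) (fderiv ℝ (m.Z 1) z ξ) * (c * ‖q - z‖ ^ 2) :=
        mul_le_mul_of_nonneg_left (hc γ mem z q hz hq) (by positivity)
    _ = _ := by ring

theorem mid (N : N0 m lg Γ O b) (bs : Bs m lg Γ) : Mid m lg := by
  intro A
  obtain ⟨C, C0, hC⟩ := H23.exc N.ok N.jac N.had N.act bs A
  refine ⟨C, C0, fun u x hu hx => ?_⟩
  have := hC u x hu hx
  rw [bs.symm x, bs.symm x] at this
  linarith

end RKIT

theorem kit : SKIT := fun _ _ _ _ _ _ _ N cv =>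
  ⟨RKIT.bs N, RKIT.jf N cv (RKIT.bs N), RKIT.step N (RKIT.jf N cv (RKIT.bs N)),
    RKIT.mov N (RKIT.bs N) 0, RKIT.mid N (RKIT.bs N)⟩

end Pool.Agent.MP_3ee8cb_gt.T0
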