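import Pool.Agent.MP_3ee8cb_gt.T0.Spec
import Pool.Agent.MP_3ee8cb_gt.DNB2.Low
import Pool.Agent.MP_3ee8cb_gt.DNC0.RBr
import Pool.Agent.MP_3ee8cb_gt.DNC0.RTel
import Pool.Agent.MP_3ee8cb_gt.DNAC.Act
import Pool.Agent.MP_3ee8cb_gt.DNJC.Out
import Pool.Agent.MP_3ee8cb_gt.LV.RBP

/-! Frames and Busemann functions for a nonpositively curved closed manifold. -/

namespace Pool.Agent.MP_3ee8cb_gt.T0

open DN (Dim dm)

variable [Dim]

open Set Filter Topology Real DN DNC0 DNB2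
open CR (Met UT dd ng bus MinP)
open scoped RealInnerProductSpace ContDiff

namespace RLINK

theorem cs (u v : V) : 0 ≤ ‖u‖ ^ 2 * ‖v‖ ^ 2 - ⟪u, v⟫ ^ 2 := by
  have := real_inner_mul_inner_self_le u v
  rw [real_inner_self_eq_norm_sq, real_inner_self_eq_norm_sq] at this
  nlinarith

theorem busz {g : Met dm} {C : TB.Chr dm} {Γ : Type} [Group Γ] [MulAction Γ V]
    {Φ : ℝ → UT g → UT g} (q : LV.QP g Γ Φ) {m : MF} {lg : W → V} (o : m.OK) (l : Lk g C Φ m)
    (dl : ∀ y z, ‖lg (y, z)‖ = dd g y z) (mh : MinP g Φ) :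
    ∃ β, Ln g Φ m lg β ∧ B0 m lg β := by
  have bp := LV.bp dm g Γ Φ q mh
  have un : ∀ p : UT g, ‖(fz m p).2‖ = 1 := fun p => by
    have := l.orth p.1.1 (m.S p.1.1 p.1.2) (m.S p.1.1 p.1.2)
    rw [o.RS, p.2, real_inner_self_eq_norm_sq] at this
    exact (pow_eq_one_iff_of_nonneg (norm_nonneg _) two_ne_zero).1 this.symm
  have c1 : Continuous fun p : UT g => p.1.1 := continuous_fst.comp continuous_subtype_val
  have on : ∀ z : W, ‖z.2‖ = 1 → ∃ p : UT g, fz m p = z := fun z hz =>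
    (br_unit o l z hz).imp fun _ h => h.1
  have ne : ∀ p : UT g, fz m (ng p) = fl (fz m p) := fun p =>
    Prod.ext rfl (map_neg (m.S p.1.1) p.1.2)
  have fw : ∀ t (p : UT g), m.Z t (fz m p) = fz m (Φ t p) := l.flow
  have k : ∀ (p p' : UT g) t, df m lg (fz m p) (fz m p') t = dd g (Φ t p).1.1 (Φ t p').1.1 :=
    fun p p' t => by rw [df, dl, br_ft l, br_ft l]
  obtain ⟨β, hβ⟩ : ∃ β : W → V → ℝ, ∀ (p : UT g) (y : V), bus g Φ p y = β (fz m p) y :=
    ⟨fun z y => ⨅ t : ℝ, (‖lg (y, (m.Z t z).1)‖ - t), fun p y =>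
      iInf_congr fun t => by rw [dl, br_ft l]⟩
  refine ⟨β, ⟨c1.prodMk ((o.cS.continuous.comp c1).clm_apply
    (continuous_snd.comp continuous_subtype_val)), un, on, ne, fw, dl, hβ⟩, fun z y hz => ?_,
    fun z x y hz => ?_, fun z t hz => ?_, fun z t y hz => ?_, fun z z' hz hz' H y => ?_,
    fun z y hz => ?_⟩
  · obtain ⟨p, rfl⟩ := on z hz
    rw [← hβ]
    refine ((bp.lim p y).comp tendsto_natCast_atTop_atTop).congr fun T => ?_
    have e : nz (fz m p) = fz m p := by rw [nz, un, inv_one, one_smul]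
    rw [bt, e, dl, br_ft l]
    rfl
  · obtain ⟨p, rfl⟩ := on z hz
    rw [← hβ, ← hβ, dl]
    exact bp.lip p x y
  · obtain ⟨p, rfl⟩ := on z hz
    rw [← hβ, br_ft l]
    exact bp.self p t
  · obtain ⟨p, rfl⟩ := on z hz
    rw [fw, ← hβ, ← hβ]
    exact bp.shift p t y
  · obtain ⟨p, rfl⟩ := on z hz
    obtain ⟨p', rfl⟩ := on z' hz'
    rw [← hβ, ← hβ]
    exact bp.top p p' (Tendsto.congr (k p p') H) y
  · obtain ⟨p, rfl⟩ := on z hz
    rw [← ne, ← hβ, ← hβ]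
    exact bp.opp p y

end RLINK

theorem link : SLINK := by
  intro hd0 g Γ _ _ Φ sm hc
  obtain ⟨C, hC, hc⟩ := hc
  have q := sm.qp
  obtain ⟨m, o, l, co⟩ := DNC0.frm3 g C Γ Φ q hC sm.sm
  have j := DN.sJAC m o
  obtain ⟨O, act⟩ := DN.sACT g C Γ Φ q hC m o l fun γ =>
    contDiff_infty.1 (sm.act γ) 2
  have up : m.Up 0 := fun y u v => by
    have := hc y (m.R y u) (m.R y v)
    rw [(l.sec o y u v).1]
    rw [(l.sec o y u v).2] at this
    nlinarith
  obtain ⟨⟨lg, hd, dl⟩, mh⟩ := hd0 g C Γ Φ q hC m o j l up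
  obtain ⟨hi, dn⟩ := low_dn o j act
  obtain ⟨β, ln, b0⟩ := RLINK.busz q o l dl mh
  have s0 : 0 ≤ √|hi| := sqrt_nonneg _
  refine ⟨C, m, lg, O, √|hi| + 1, β, hC, l, ⟨o, j, hd, act, by linarith, up, fun y u v => ?_,
    fun R => ?_, ?_, fun γ => ?_⟩, mh, ln, b0⟩
  · refine (dn y u v).trans (mul_le_mul_of_nonneg_right ?_ (RLINK.cs u v))
    have := sq_sqrt (abs_nonneg hi)
    nlinarith [le_abs_self hi]
  · have := q.rp.deck.disc
    refine (ProperlyDiscontinuousSMul.finite_disjoint_inter_image (Γ := Γ)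
      (isCompact_closedBall (0 : V) R) (isCompact_closedBall (0 : V) R)).subset ?_
    rintro γ ⟨x, h1, h2⟩
    exact ⟨γ • x, ⟨x, Metric.mem_closedBall.2 (by simpa using h1), rfl⟩,
      Metric.mem_closedBall.2 (by simpa using h2)⟩
  · have a1 : ContDiff ℝ 2 fun z : V × V => m.R z.1 z.2 :=
      (o.cR.comp contDiff_fst).clm_apply contDiff_snd
    exact stay m.vf m.Z (a1.prodMk (((co.comp contDiff_fst).clm_apply a1).clm_apply
      contDiff_snd).neg) o.cZ o.zero o.ode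
  · exact DNFL.act3 o act γ (contDiff_infty.1 (sm.act γ) 3)

end Pool.Agent.MP_3ee8cb_gt.T0
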