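import Pool.Agent.MP_3ee8cb_gt.T0.Spec

/-! The geodesic from the far past of `w` to the far future of a nearby `w'` passes near `w`. -/

namespace Pool.Agent.MP_3ee8cb_gt.T0

open Real
open CR (Met UT dd ng MinP)

theorem lp : SLP := by
  intro n g Γ _ _ Φ hQ a ha hM hH ⟨K, δ₀, hK, hδ₀, far⟩ η hη
  have hD := hQ.rp.db
  have z := hQ.rp.flow.zero
  have hc : 1 < cosh (a * η) := one_lt_cosh.mpr (by positivity)
  have hl : 0 < log (cosh (a * η)) := log_pos hc
  have hK1 : 0 < K + 1 := by linarith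
  set δ : ℝ := min δ₀ (min (1 / (K + 1)) (log (cosh (a * η)) / (a * (K + 1)))) with hδd
  have hδ : 0 < δ := lt_min hδ₀ (lt_min (by positivity) (by positivity))
  have d1 : δ * (K + 1) ≤ 1 := (le_div_iff₀ hK1).1 ((min_le_right _ _).trans (min_le_left _ _))
  have d2 : δ * (a * (K + 1)) ≤ log (cosh (a * η)) :=
    (le_div_iff₀ (by positivity)).1 ((min_le_right _ _).trans (min_le_right _ _))
  refine ⟨δ, 1, hδ, fun j hj w w' u L h0 h1 hL hu hB => ?_⟩
  have hj0 : 0 ≤ j := by linarith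
  have dAB : dd g (Φ (-j) w).1.1 (Φ j w').1.1 = L := by
    have := hM u 0 L
    rwa [z, hB, hu, zero_sub, abs_neg, abs_of_nonneg hL] at this
  have hf := far δ j w w' hδ.le (min_le_left _ _) hj h0 h1
  rw [dAB] at hf
  have hjL : j ≤ L := by nlinarith
  refine ⟨hjL, ?_⟩
  obtain ⟨q, hq, hq'⟩ := hQ.rp.hr (Φ j u).1.1 w.1.1
  set d := dd g (Φ j u).1.1 w.1.1 with hd
  have d0 : 0 ≤ d := hD.nonneg _ _
  have i1 := hH (Φ j u) q hq.symm (L - j) d (by linarith) d0
  have i2 := hH (ng (Φ j u)) q hq.symm j d hj0 d0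
  rw [← hQ.add, sub_add_cancel, hB, hq'] at i1
  rw [hQ.rp.fl.rev, ← hQ.add, neg_add_cancel, z, hq'] at i2
  have e2 : dd g (ng u).1.1 w.1.1 = j := by
    have := hM w (-j) 0
    rwa [z, sub_zero, abs_neg, abs_of_nonneg hj0, ← hu] at this
  have e1 : dd g (Φ j w').1.1 w.1.1 ≤ j + δ := by
    have t := hD.tri (Φ j w').1.1 w'.1.1 w.1.1
    have := hM w' j 0
    rw [z, sub_zero, abs_of_nonneg hj0] at this
    rw [hD.symm w'.1.1] at t
    linarith
  have e3 : g (ng (Φ j u)).1.1 (ng (Φ j u)).1.2 q.1.2 = -g (Φ j u).1.1 (Φ j u).1.2 q.1.2 := by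
    simp [ng]
  rw [e2, e3] at i2
  have k2 := le_of_mul_le_mul_left (i2.trans_eq (mul_one _).symm) (exp_pos _)
  have e4 : exp (a * dd g (Φ j w').1.1 w.1.1) ≤ exp (a * (L - j)) * cosh (a * η) := by
    rw [← exp_log (cosh_pos (a * η)), ← exp_add]
    refine exp_le_exp.2 ?_
    have := mul_le_mul_of_nonneg_left e1 ha.le
    have := mul_le_mul_of_nonneg_left hf ha.le
    nlinarith
  have k1 := le_of_mul_le_mul_left (i1.trans e4) (exp_pos _)
  have k : cosh (a * d) ≤ cosh (a * η) := by linarith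
  rw [cosh_le_cosh, abs_of_nonneg (by positivity), abs_of_nonneg (by positivity)] at k
  exact le_of_mul_le_mul_left k ha

end Pool.Agent.MP_3ee8cb_gt.T0
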