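import Pool.Agent.MP_3ee8cb_gt.T0.Spec

/-! Thin triangles from the exponential hinge inequality. -/

namespace Pool.Agent.MP_3ee8cb_gt.T0

open DN (Dim dm)

variable [Dim]

open Set Real DN DNC0
open scoped RealInnerProductSpace

namespace RTF

variable {m : MF} {lg : W → V} {Γ : Type} [Group Γ] [MulAction Γ V] {a : ℝ}

theorem side (ok : m.OK) (jac : m.Jac) (had : m.Had lg) (bs : Bs m lg Γ) (hf : Hf m lg a)
    (y : V) {u u' : V} (hu : ‖u‖ = 1) (hu' : ‖u'‖ = 1) {t : ℝ} (ht : 0 ≤ t)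
    (hD : 0 < df m lg (y, u) (y, u') t) :
    cosh (a * df m lg (y, u) (y, u') t) - 1 ≤ sinh (a * df m lg (y, u) (y, u') t) *
      (-⟪lg ((m.Z t (y, u)).1, (m.Z t (y, u')).1), (m.Z t (y, u)).2⟫ /
        df m lg (y, u) (y, u') t) := by
  set D := df m lg (y, u) (y, u') t with hDd
  set P := (m.Z t (y, u)).1 with hP
  set v := (m.Z t (y, u)).2 with hv
  set Q := (m.Z t (y, u')).1 with hQ
  have hl : ‖lg (P, Q)‖ = D := rfl
  have n1 : ‖-v‖ = 1 := by rw [norm_neg, hv, jac.norm]; exact hu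
  have n2 : ‖D⁻¹ • lg (P, Q)‖ = 1 := by
    rw [norm_smul, hl, Real.norm_of_nonneg (inv_nonneg.2 hD.le), inv_mul_cancel₀ hD.ne']
  have e1 : (m.Z t (P, -v)).1 = y := by
    have h : m.Z t (fl (m.Z t (y, u))) = fl (m.Z (-t) (m.Z t (y, u))) := bs.flip _ _
    rw [← ok.add, neg_add_cancel, ok.zero] at h
    exact congrArg Prod.fst h
  have e2 : (m.Z D (P, D⁻¹ • lg (P, Q))).1 = Q := by
    have h := congrArg Prod.fst (jac.scale D D⁻¹ P (lg (P, Q)))
    rw [inv_mul_cancel₀ hD.ne'] at h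
    exact h.trans (had.ex P Q)
  have e3 : ‖lg (y, Q)‖ = t := by
    have h := bs.geo (y, u') 0 t
    rw [ok.zero, zero_sub, abs_neg, abs_of_nonneg ht] at h
    exact h.trans (by rw [hu', mul_one])
  have h := hf P _ _ n1 n2 t D ht hD.le
  rw [e1, e2, e3, inner_neg_left, inner_smul_right, real_inner_comm] at h
  have h2 := le_of_mul_le_mul_left (h.trans_eq (mul_one _).symm) (exp_pos _)
  rw [div_eq_inv_mul]
  linarith

theorem der (ok : m.OK) (had : m.Had lg) (p q : W) (t : ℝ) (hD : 0 < df m lg p q t) :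
    HasDerivAt (df m lg p q) ((-⟪lg ((m.Z t p).1, (m.Z t q).1), (m.Z t p).2⟫ -
      ⟪lg ((m.Z t q).1, (m.Z t p).1), (m.Z t q).2⟫) / df m lg p q t) t := by
  have c1 : DifferentiableAt ℝ (fun q => ‖lg q‖ ^ 2 / 2) ((m.Z t p).1, (m.Z t q).1) :=
    ((had.c1.norm_sq ℝ).div_const 2).differentiable (by simp) _
  have o : ∀ z : W, HasDerivAt (fun s => (m.Z s z).1) (m.vf (m.Z t z)).1 t := fun z =>
    (ContinuousLinearMap.fst ℝ V V).hasFDerivAt.comp_hasDerivAt t (ok.ode z t)
  have h1 := HasFDerivAt.comp_hasDerivAt (f := fun s => ((m.Z s p).1, (m.Z s q).1)) t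
    c1.hasFDerivAt ((o p).prodMk (o q))
  rw [had.grad] at h1
  simp only [MF.vf, ok.SR, Prod.swap_prod_mk] at h1
  have h2 := (h1.const_mul 2).sqrt (by
    have : 0 < 2 * (df m lg p q t ^ 2 / 2) := by positivity
    exact this.ne')
  have e : ∀ s, √(2 * (‖lg ((m.Z s p).1, (m.Z s q).1)‖ ^ 2 / 2)) = df m lg p q s := fun s => by
    rw [mul_div_cancel₀ _ two_ne_zero, sqrt_sq (norm_nonneg _)]; rfl
  simp only [Function.comp_def, e] at h2
  exact h2.congr_deriv (by field_simp)

end RTF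

theorem tf : STF := by
  intro m lg Γ _ _ O b n0 a ha kit hf y u u' hu hu' R T hT hR
  have z0 : ∀ x : ℝ, 0 ≤ exp (-(2 * a * T)) * (cosh x - 1) := fun x =>
    mul_nonneg (exp_pos _).le (sub_nonneg.2 (one_le_cosh x))
  rcases eq_or_ne u u' with rfl | hne
  · have e : df m lg (y, u) (y, u) (R - T) = 0 := by rw [df, kit.bs.self, norm_zero]
    rw [e, mul_zero, cosh_zero]
    linarith [z0 (a * df m lg (y, u) (y, u) R)]
  rcases (sub_nonneg.2 hR).eq_or_lt with h0 | h0
  · have e : df m lg (y, u) (y, u') (R - T) = 0 := by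
      rw [← h0, df, n0.ok.zero, n0.ok.zero, kit.bs.self, norm_zero]
    rw [e, mul_zero, cosh_zero]
    linarith [z0 (a * df m lg (y, u) (y, u') R)]
  have pos : ∀ t, 0 < t → 0 < df m lg (y, u) (y, u') t := fun t ht => by
    have h := n0.had.hinge y (t • u) (t • u')
    rw [n0.jac.scale, n0.jac.scale, mul_one, ← smul_sub] at h
    exact (norm_pos_iff.2 (smul_ne_zero ht.ne' (sub_ne_zero.2 hne))).trans_le h
  have sy : ∀ t, df m lg (y, u') (y, u) t = df m lg (y, u) (y, u') t := fun t => kit.bs.symm _ _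
  have key : ∀ t, 0 < t → ∃ d, 0 ≤ d ∧ HasDerivAt
      (fun s => exp (-(2 * a * s)) * (cosh (a * df m lg (y, u) (y, u') s) - 1)) d t := by
    intro t ht
    have h1 := (((hasDerivAt_id t).const_mul (2 * a)).neg.exp).mul
      ((((RTF.der n0.ok n0.had (y, u) (y, u') t (pos t ht)).const_mul a).cosh).sub_const 1)
    refine ⟨_, ?_, h1⟩
    have s1 := RTF.side n0.ok n0.jac n0.had kit.bs hf y hu hu' ht.le (pos t ht)
    have s2 := RTF.side n0.ok n0.jac n0.had kit.bs hf y hu' hu ht.le (sy t ▸ pos t ht)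
    rw [sy] at s2
    have s3 := mul_le_mul_of_nonneg_left (add_le_add s1 s2) ha.le
    have s4 := mul_nonneg (exp_pos (-(2 * a * t))).le (sub_nonneg.2 s3)
    refine s4.trans_eq ?_
    simp only [id, Pi.neg_apply]
    ring
  choose! d d0 hd using key
  have mono : MonotoneOn
      (fun s => exp (-(2 * a * s)) * (cosh (a * df m lg (y, u) (y, u') s) - 1)) (Ioi 0) := by
    refine monotoneOn_of_deriv_nonneg (convex_Ioi 0)
      (fun t ht => (hd t ht).continuousAt.continuousWithinAt) (fun t ht => ?_) fun t ht => ?_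
    · exact (hd t (interior_subset ht)).differentiableAt.differentiableWithinAt
    · rw [(hd t (interior_subset ht)).deriv]; exact d0 t (interior_subset ht)
  have h := mono h0 (show R ∈ Ioi 0 from h0.trans_le (by linarith)) (by linarith)
  have e : exp (-(2 * a * R)) = exp (-(2 * a * (R - T))) * exp (-(2 * a * T)) := by
    rw [← exp_add]; congr 1; ring
  simp only [e, mul_assoc (exp _)] at h
  linarith [le_of_mul_le_mul_left h (exp_pos _)]

end Pool.Agent.MP_3ee8cb_gt.T0
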