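import Pool.Agent.MP_3ee8cb_gt.T0.Spec
import Pool.Agent.MP_3ee8cb_gt.DNC0.H38Tay

/-! The pairing at the start: a second order expansion of the geodesic flow. -/

namespace Pool.Agent.MP_3ee8cb_gt.T0

open DN (Dim dm)

variable [Dim]

open Set DN DNC0
open scoped RealInnerProductSpace

namespace RTY

theorem vf1 {m : MF} (o : m.OK) : ContDiff ℝ 1 m.vf := by
  have hR : ContDiff ℝ 1 fun z : W => m.R z.1 z.2 :=
    ((o.cR.of_le (by norm_num)).comp contDiff_fst).clm_apply contDiff_snd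
  have hO : ContDiff ℝ 1 fun z : W => m.om z.1 (m.R z.1 z.2) z.2 :=
    ((o.com.comp contDiff_fst).clm_apply hR).clm_apply contDiff_snd
  exact hR.prodMk hO.neg

theorem seg {f f' : ℝ → W} {δ C : ℝ} (h0 : 0 ≤ δ) (hd : ∀ s, HasDerivAt f (f' s) s)
    (hb : ∀ s ∈ Icc (0 : ℝ) δ, ‖f' s‖ ≤ C) : ‖f δ - f 0‖ ≤ C * δ := by
  have := (convex_Icc (0 : ℝ) δ).norm_image_sub_le_of_norm_hasDerivWithin_le
    (fun s _ => (hd s).hasDerivWithinAt) hb (left_mem_Icc.2 h0) (right_mem_Icc.2 h0)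
  simpa [abs_of_nonneg h0] using this

theorem tay {m : MF} (o : m.OK) (R : ℝ) : ∃ C, 0 ≤ C ∧ ∀ (p : W) (δ : ℝ), ‖p‖ ≤ R → 0 ≤ δ →
    δ ≤ 1 → ‖m.Z δ p - p - δ • m.vf p‖ ≤ C * δ ^ 2 := by
  obtain ⟨B, -, hB⟩ := H38.flow_ball o.cZ R
  obtain ⟨M, M0, hM⟩ := H38.bdd_ball (vf1 o).continuous B
  obtain ⟨L, L0, hL⟩ := H38.lip_ball (vf1 o) B
  refine ⟨L * M, by positivity, fun p δ hp h0 h1 => ?_⟩
  have hb : ∀ s ∈ Icc (0 : ℝ) δ, ‖m.Z s p‖ ≤ B := fun s hs =>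
    (hB s ⟨hs.1, hs.2.trans h1⟩ p hp).1
  have hp' : ‖p‖ ≤ B := by simpa [o.zero] using hb 0 (left_mem_Icc.2 h0)
  have h2 : ∀ s ∈ Icc (0 : ℝ) δ, ‖m.Z s p - p‖ ≤ M * δ := fun s hs => by
    have := seg (f := fun s => m.Z s p) hs.1 (o.ode p)
      (fun r hr => hM _ (hb r ⟨hr.1, hr.2.trans hs.2⟩))
    simp only [o.zero] at this
    exact this.trans (mul_le_mul_of_nonneg_left hs.2 M0)
  have h3 := seg (f := fun s => m.Z s p - s • m.vf p) (f' := fun s => m.vf (m.Z s p) - m.vf p)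
    (C := L * (M * δ)) h0
    (fun s => by
      have := (o.ode p s).fun_sub ((hasDerivAt_id' s).smul_const (m.vf p))
      rwa [one_smul] at this)
    (fun s hs => (hL p _ hp' (hb s hs)).trans (mul_le_mul_of_nonneg_left (h2 s hs) L0))
  simp only [o.zero, zero_smul, sub_zero] at h3
  calc _ = ‖m.Z δ p - δ • m.vf p - p‖ := by rw [sub_right_comm]
    _ ≤ _ := h3
    _ = _ := by ring

theorem alg {m : MF} (o : m.OK) (z ξ c r : W) (n e : V) (δ : ℝ) (he : m.hor z ξ = e)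
    (h0 : ⟪e, z.2⟫ = 0) (hr : r = c - (z.1, e) - δ • m.vf (z.1, e)) :
    om m z ξ ((c.1, n) - z) - ⟪c.2, n⟫ + δ * ⟪m.ver z ξ, e⟫ =
      δ * ⟪m.om z.1 (m.R z.1 e) e, n - z.2⟫ - ⟪r.2, n⟫ + ⟪e, m.om z.1 r.1 z.2⟫ -
        ⟪m.ver z ξ, m.S z.1 r.1⟫ := by
  have h1 : c.1 - z.1 = δ • m.R z.1 e + r.1 := by simp [hr, MF.vf]
  have h2 : c.2 = e - δ • m.om z.1 (m.R z.1 e) e + r.2 := by simp [hr, MF.vf]
  have h3 : m.hor z ((c.1, n) - z) = δ • e + m.S z.1 r.1 := by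
    simp [MF.hor, h1, o.SR]
  have h4 : m.ver z ((c.1, n) - z) =
      n - z.2 + (δ • m.om z.1 (m.R z.1 e) z.2 + m.om z.1 r.1 z.2) := by
    simp [MF.ver, h1]
  have h5 := o.skew z.1 (m.R z.1 e) e z.2
  rw [om, he, h3, h4, h2]
  simp only [inner_add_right, inner_sub_right, inner_add_left, inner_sub_left,
    real_inner_smul_right, real_inner_smul_left, h0, h5]
  ring

end RTY

theorem ty : STY := by
  intro m lg Γ _ _ O b N R A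
  have o := N.ok
  obtain ⟨C, C0, hC⟩ := RTY.tay o (max R 1)
  obtain ⟨a, a0, ha⟩ := H38.bdd_ball o.com.continuous R
  obtain ⟨r, r0, hr⟩ := H38.bdd_ball o.cR.continuous R
  obtain ⟨s, s0, hs⟩ := H38.bdd_ball o.cS.continuous R
  refine ⟨a * r * |A| + C + a * C + s * C, by positivity, ?_⟩
  intro z ξ c n δ hz hv he hp hn h0 h1 hc hA
  have hx : ‖z.1‖ ≤ R := (norm_fst_le z).trans hz
  obtain ⟨e, hE⟩ : ∃ e, m.hor z ξ = e := ⟨_, rfl⟩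
  rw [hE] at he hp hc ⊢
  obtain ⟨q, hq⟩ : ∃ q, q = c - (z.1, e) - δ • m.vf (z.1, e) := ⟨_, rfl⟩
  rw [RTY.alg o z ξ c q n e δ hE hp hq]
  have hQ : ‖q‖ ≤ C * δ ^ 2 := by
    rw [hq, hc]
    refine hC _ δ ?_ h0.le h1
    rw [Prod.norm_def]
    exact max_le_max hx he.le
  have q1 : ‖q.1‖ ≤ C * δ ^ 2 := (norm_fst_le q).trans hQ
  have q2 : ‖q.2‖ ≤ C * δ ^ 2 := (norm_snd_le q).trans hQ
  have hnv : ‖n - z.2‖ ≤ |A| * δ :=
    ((norm_snd_le ((c.1, n) - z)).trans hA).trans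
      (mul_le_mul_of_nonneg_right (le_abs_self A) h0.le)
  have ho : ∀ u w : V, ‖w‖ = 1 → ‖m.om z.1 u w‖ ≤ a * ‖u‖ := fun u w hw => by
    calc _ ≤ ‖m.om z.1‖ * ‖u‖ * ‖w‖ := (m.om z.1).le_opNorm₂ u w
      _ ≤ _ := by
        rw [hw, mul_one]
        exact mul_le_mul_of_nonneg_right (ha _ hx) (norm_nonneg _)
  have hRe : ‖m.R z.1 e‖ ≤ r := by
    calc _ ≤ ‖m.R z.1‖ * ‖e‖ := (m.R z.1).le_opNorm e
      _ ≤ _ := by rw [he, mul_one]; exact hr _ hx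
  have t1 : |⟪m.om z.1 (m.R z.1 e) e, n - z.2⟫| ≤ a * r * (|A| * δ) :=
    (abs_real_inner_le_norm _ _).trans (mul_le_mul
      ((ho _ _ he).trans (mul_le_mul_of_nonneg_left hRe a0)) hnv (norm_nonneg _) (by positivity))
  have t2 : |⟪q.2, n⟫| ≤ C * δ ^ 2 :=
    (abs_real_inner_le_norm _ _).trans (by rw [hn, mul_one]; exact q2)
  have t3 : |⟪e, m.om z.1 q.1 z.2⟫| ≤ a * (C * δ ^ 2) :=
    (abs_real_inner_le_norm _ _).trans (by
      rw [he, one_mul]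
      exact (ho _ _ hv).trans (mul_le_mul_of_nonneg_left q1 a0))
  have t4 : |⟪m.ver z ξ, m.S z.1 q.1⟫| ≤ ‖m.ver z ξ‖ * (s * (C * δ ^ 2)) :=
    (abs_real_inner_le_norm _ _).trans (mul_le_mul_of_nonneg_left
      (((m.S z.1).le_opNorm _).trans (mul_le_mul (hs _ hx) q1 (norm_nonneg _) s0))
      (norm_nonneg _))
  have t0 : |δ * ⟪m.om z.1 (m.R z.1 e) e, n - z.2⟫| ≤ a * r * |A| * δ ^ 2 := by
    rw [abs_mul, abs_of_pos h0]
    calc _ ≤ δ * (a * r * (|A| * δ)) := mul_le_mul_of_nonneg_left t1 h0.le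
      _ = _ := by ring
  have hv0 := norm_nonneg (m.ver z ξ)
  have p1 : 0 ≤ (a * r * |A| + C + a * C) * δ ^ 2 * ‖m.ver z ξ‖ := by positivity
  have p2 : 0 ≤ s * C * δ ^ 2 := by positivity
  rw [abs_le] at t0 t2 t3 t4 ⊢
  constructor <;> nlinarith [t0.1, t0.2, t2.1, t2.2, t3.1, t3.2, t4.1, t4.2]

end Pool.Agent.MP_3ee8cb_gt.T0
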