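import Pool.Agent.MP_3ee8cb_gt.T0.Spec
import Pool.Agent.MP_3ee8cb_gt.DNC0.RBs

/-! Geodesics that stay close are asymptotic after a shift. -/

namespace Pool.Agent.MP_3ee8cb_gt.T0

open DN (Dim dm)

variable [Dim]

open Set Filter Topology Real DN DNC0 DNB2

namespace RX1

/-- Two rays from one point at bounded distance are equal. -/
theorem uniq {m : MF} {lg : W → V} (jac : m.Jac) (had : m.Had lg) {p q : W} {A : ℝ}
    (e : p.1 = q.1) (h : ∀ᶠ t in atTop, df m lg p q t ≤ A) : p = q := by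
  obtain ⟨y, n⟩ := p
  obtain ⟨y', n'⟩ := q
  obtain rfl : y = y' := e
  have h1 : ‖n - n'‖ ≤ 0 := by
    refine ge_of_tendsto (tendsto_const_nhds.div_atTop (a := A) tendsto_id)
      ((h.and (eventually_gt_atTop 0)).mono fun t ht => ?_)
    have := had.hinge y (t • n) (t • n')
    rw [RBs.ray jac, RBs.ray jac, ← smul_sub, norm_smul, Real.norm_of_nonneg ht.2.le] at this
    rw [id, le_div_iff₀ ht.2, mul_comm]
    exact this.trans ht.1
  rw [sub_eq_zero.1 (norm_le_zero_iff.1 h1)]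

end RX1

theorem x1 : SX1 := by
  intro m lg Γ _ _ O b β m' lg' Λ _ _ O' a' b' β' φ N _ _ N' bs' _ as _ P
  obtain ⟨e, he, uc⟩ := P.uc 1 one_pos
  refine ⟨e, he, fun w z hw hz h => ?_⟩
  have un : ∀ (t : ℝ) (p : W), ‖p.2‖ = 1 → ‖(m.Z t p).2‖ = 1 := fun t p hp => by
    rw [N.jac.norm, hp]
  have h1 : ∀ t, 0 ≤ t → df m' lg' (φ w) (φ z) t ≤ 1 := fun t ht => by
    have k := uc _ _ (un t w hw) (un t z hz) fun s hs => by
      rw [df, ← N.ok.add, ← N.ok.add]
      exact h _ (add_nonneg hs.1 ht)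
    rwa [df, N'.ok.zero, N'.ok.zero, P.flow t w hw, P.flow t z hz] at k
  obtain ⟨u, hu, fu, eu⟩ := as.ex (φ z) (φ w).1 (P.unit z hz)
  generalize β' (φ z) (φ w).1 = c at eu
  have e1 : φ w = m'.Z (-c) u := by
    refine RX1.uniq N'.jac N'.had (A := 2 + |c|) eu.symm
      (((fu.eventually (eventually_le_nhds one_pos)).and (eventually_ge_atTop 0)).mono
        fun t ht => ?_)
    have t1 := N'.had.tri (m'.Z t (φ w)).1 (m'.Z t (φ z)).1 (m'.Z (t + -c) u).1
    have t2 := N'.had.tri (m'.Z t (φ z)).1 (m'.Z t u).1 (m'.Z (t + -c) u).1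
    have t3 := bs'.geo u t (t + -c)
    have t4 := bs'.symm (m'.Z t (φ z)).1 (m'.Z t u).1
    have t5 := h1 t ht.2
    have t6 := ht.1
    rw [hu, mul_one, show t - (t + -c) = c by ring] at t3
    rw [df] at t5 t6
    rw [df, ← N'.ok.add]
    linarith
  refine ⟨c, (P.fw _ _ (un c w hw) hz).2 ?_⟩
  rwa [P.flow c w hw, e1, ← N'.ok.add, add_neg_cancel, N'.ok.zero]

end Pool.Agent.MP_3ee8cb_gt.T0
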