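import Pool.Agent.MP_3ee8cb_gt.T0.Spec
import Pool.Agent.MP_3ee8cb_gt.DNB2.REx

/-! Offsets in the source are exponentially small. -/

namespace Pool.Agent.MP_3ee8cb_gt.T0

open DN (Dim dm)

variable [Dim]

open Set Filter Topology Real DN DNC0 DNB2 DNB2.REx

namespace RX2

variable {m : MF} {lg : W → V} {Γ : Type} [Group Γ] [MulAction Γ V] {a : ℝ} {β : W → V → ℝ}

theorem sh (o : m.OK) (p q : W) (c s : ℝ) :
    df m lg (m.Z c p) (m.Z c q) s = df m lg p q (s + c) := by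
  rw [df, df, o.add, o.add]

theorem sy (B : Bs m lg Γ) (p q : W) (s : ℝ) : df m lg p q s = df m lg q p s := B.symm _ _

theorem bwZ (o : m.OK) {p q : W} (h : Bw m lg p q) (c : ℝ) : Bw m lg (m.Z c p) (m.Z c q) :=
  (Tendsto.comp h (tendsto_atBot_add_const_right _ c tendsto_id)).congr
    fun s => (sh o p q c s).symm

/-- Both neighbours are close to each other in the middle. -/
theorem mid (o : m.OK) (j : m.Jac) (hd : m.Had lg) (B : Bs m lg Γ) (A : Asy m lg a β)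
    (ha : 0 < a) : ∃ C : ℝ, 0 ≤ C ∧ ∀ (z p q : W) (t : ℝ), ‖z.2‖ = 1 → ‖p.2‖ = 1 → ‖q.2‖ = 1 →
      2 ≤ t → Fw m lg q z → Bw m lg p z → df m lg q z 0 ≤ 1 → df m lg p z (t - 1) ≤ 1 →
        ∀ s, 0 ≤ s → s ≤ 1 → df m lg q p (s + (t / 2 - 1)) ≤ C * exp (-(a / 2 * t)) := by
  obtain ⟨C, hC, H⟩ := A.dec 1
  refine ⟨2 * C * exp a, by positivity, fun z p q t hz hp hq ht fq bp h0 h1 s s0 s1 => ?_⟩
  have key : ∀ d r : ℝ, 0 ≤ d → d ≤ 1 → t / 2 - 1 ≤ r →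
      C * d * exp (-(a * r)) ≤ C * exp a * exp (-(a / 2 * t)) := fun d r d0 d1 hr => by
    rw [mul_assoc C (exp a), ← exp_add]
    have : exp (-(a * r)) ≤ exp (a + -(a / 2 * t)) := exp_le_exp.2 (by nlinarith)
    calc C * d * exp (-(a * r)) ≤ C * 1 * exp (a + -(a / 2 * t)) := by gcongr
      _ = _ := by ring
  rw [sy B] at h0
  have e1 := (H z q hz hq fq h0 (s + (t / 2 - 1)) (by linarith)).trans
    (key _ _ (norm_nonneg _) h0 (by linarith))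
  have h2 : df m lg (fl (m.Z (t - 1) z)) (fl (m.Z (t - 1) p)) 0 ≤ 1 := by
    rwa [df_fl B, sh o, neg_zero, zero_add, sy B]
  have e2 := (H _ _ (fl_unit ((j.norm _ _).trans hz)) (fl_unit ((j.norm _ _).trans hp))
    (fw_fl B (bwZ o bp (t - 1))) h2 (t / 2 - s) (by linarith)).trans
    (key _ _ (norm_nonneg _) h2 (by linarith))
  rw [df_fl B, sh o, show -(t / 2 - s) + (t - 1) = s + (t / 2 - 1) by ring] at e2
  rw [sy B] at e1
  have := hd.tri (m.Z (s + (t / 2 - 1)) q).1 (m.Z (s + (t / 2 - 1)) z).1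
    (m.Z (s + (t / 2 - 1)) p).1
  unfold df at *
  linarith

end RX2

open RX2 in
theorem x2 : SX2 := by
  intro m lg Γ _ _ O b β m' lg' Λ _ _ O' a' b' β' φ N B Z N' B' Z' A' nf pr
  obtain ⟨e, he, uc⟩ := pr.uc 1 one_pos
  obtain ⟨C, hC, H⟩ := mid N'.ok N'.jac N'.had B' A' N'.a0
  obtain ⟨K, δ₀, hK, h0, nf⟩ := nf
  obtain ⟨δ, hδ, uni⟩ := Z'.uni 1 one_pos
  have ha : 0 < a' / 2 := half_pos N'.a0
  have lim : Tendsto (fun t : ℝ => C * exp (-(a' / 2 * t))) atTop (𝓝 0) := by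
    simpa using (tendsto_exp_neg_atTop_nhds_zero.comp
      (tendsto_id.const_mul_atTop ha)).const_mul C
  obtain ⟨t₁, ht₁⟩ := eventually_atTop.1
    ((lim.eventually (ge_mem_nhds (lt_min hδ h0))).and (eventually_ge_atTop 2))
  refine ⟨e, he, K * C, a' / 2, t₁, by positivity, ha,
    fun z p q t hz hp hq ht fq bp dq dp y => ?_⟩
  obtain ⟨sm, t2⟩ := ht₁ t ht
  have un : ∀ (c : ℝ) {w : W}, ‖w.2‖ = 1 → ‖(m.Z c w).2‖ = 1 :=
    fun c w hw => (N.jac.norm _ _).trans hw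
  have d1 := uc _ _ (un (t - 1) hp) (un (t - 1) hz) fun s hs => by
    rw [sh N.ok]
    exact dp _ (by linarith [hs.2])
  rw [pr.flow _ _ hp, pr.flow _ _ hz, sh N'.ok, zero_add] at d1
  have cl := H (φ z) (φ p) (φ q) t (pr.unit z hz) (pr.unit p hp) (pr.unit q hq) t2
    ((pr.fw q z hq hz).1 fq) ((pr.bw p z hp hz).1 bp) (uc q z hq hz fun s hs => dq s hs.1) d1
  have hP := un (t / 2 - 1) hp
  have hQ := un (t / 2 - 1) hq
  have c0 := cl 0 le_rfl zero_le_one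
  have c1 := cl 1 zero_le_one le_rfl
  rw [← sh N'.ok, ← pr.flow _ _ hp, ← pr.flow _ _ hq] at c0 c1
  obtain ⟨u', t₀, hu', -, bu, fu⟩ := uni _ _ (pr.unit _ hQ) (pr.unit _ hP)
    (c0.trans (sm.trans (min_le_left _ _))) (c1.trans (sm.trans (min_le_left _ _)))
  have low := nf _ _ _ (pr.unit _ hQ) (pr.unit _ hP) (by positivity)
    (sm.trans (min_le_right _ _)) c0 c1 u'.1
  have z0 := b0 N'.ok Z' (fl_unit hu')
  rw [fl1] at z0
  rw [← Z'.top _ _ ((N'.jac.norm _ _).trans hu') (pr.unit _ hP) fu, Z'.shift _ _ _ hu',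
    ← Z'.top _ _ (fl_unit hu') (fl_unit (pr.unit _ hQ)) (fw_fl B' bu), b0 N'.ok Z' hu', z0] at low
  obtain ⟨u, hu, rfl⟩ := pr.onto u' hu'
  rw [← pr.flow _ _ hu] at fu
  have e1 := Z.top _ _ (un t₀ hu) hP ((pr.fw _ _ (un t₀ hu) hP).2 fu) y
  have e2 := Z.top _ _ (fl_unit hu) (fl_unit hQ) (fw_fl B ((pr.bw _ _ hu hQ).2 bu)) y
  have e3 := B.flip (-(t / 2 - 1)) q
  rw [neg_neg] at e3
  rw [← e3, Z.shift _ _ _ (fl_unit hq)] at e2
  rw [Z.shift _ _ _ hu, Z.shift _ _ _ hp] at e1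
  have := Z.opp u y hu
  rw [mul_assoc]
  linarith

end Pool.Agent.MP_3ee8cb_gt.T0
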