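import Pool.Agent.MP_3ee8cb_gt.T0.Top
import Pool.Agent.MP_3ee8cb_gt.T0.Fin
import Pool.Agent.MP_3ee8cb_gt.T0.RAN
import Pool.Agent.MP_3ee8cb_gt.T0.RDEC
import Pool.Agent.MP_3ee8cb_gt.T0.RHF
import Pool.Agent.MP_3ee8cb_gt.T0.RX1
import Pool.Agent.MP_3ee8cb_gt.T0.RX2
import Pool.Agent.MP_3ee8cb_gt.T0.RCV
import Pool.Agent.MP_3ee8cb_gt.T0.RKIT
import Pool.Agent.MP_3ee8cb_gt.T0.RAS
import Pool.Agent.MP_3ee8cb_gt.T0.RJB
import Pool.Agent.MP_3ee8cb_gt.T0.RTL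
import Pool.Agent.MP_3ee8cb_gt.T0.RTY
import Pool.Agent.MP_3ee8cb_gt.T0.RTF
import Pool.Agent.MP_3ee8cb_gt.T0.RFAR
import Pool.Agent.MP_3ee8cb_gt.T0.RLP
import Pool.Agent.MP_3ee8cb_gt.T0.RHAD
import Pool.Agent.MP_3ee8cb_gt.T0.RLINK
import Pool.Agent.MP_3ee8cb_gt.T0.RCON

/-! A nonpositively curved source: all rows together. -/

namespace Pool.Agent.MP_3ee8cb_gt.T0

variable [DN.Dim]

theorem rows : Rows :=
  ⟨cv, kit, lb0, as_, dec, jb, tl, ty, an, hf, tf, hin, far, nm, lp, lbe, x1, x2, had0, link, con,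
    bz0, pr⟩

theorem partB0 : PartB0 := partB0_of rows

end Pool.Agent.MP_3ee8cb_gt.T0
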