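import Pool.Agent.MP_3ee8cb_gt.T0.Spec
import Pool.Agent.MP_3ee8cb_gt.DNC0.RMov

/-! Telescoping against a bounded Jacobi field. -/

namespace Pool.Agent.MP_3ee8cb_gt.T0

open DN (Dim dm)

variable [Dim]

open Set Filter Topology Real DN DNC0 DNB2
open scoped RealInnerProductSpace

theorem tl : STL := by
  intro m lg Γ _ _ O b nw kit R
  have ok := nw.ok
  have act := nw.act
  have bs := kit.bs
  obtain ⟨K, hK, hK'⟩ := act.cpt
  obtain ⟨R₀, hR₀⟩ := hK.isBounded.exists_norm_le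
  set R₁ := max R (max R₀ 1) with hR₁
  have r1 : (1 : ℝ) ≤ R₁ := le_max_of_le_right (le_max_right _ _)
  obtain ⟨R₂, hR₂⟩ := bs.bdd R₁
  obtain ⟨c, c0, hc⟩ := kit.st (max R₁ R₂)
  obtain ⟨d, d0, hd⟩ := bs.del (max R₁ R₂)
  obtain ⟨o, o0, ho⟩ := kit.jf.omb (max R₁ R₂)
  set C := o * d + c * (2 * d) ^ 2 with hC
  have C1 : o * d ≤ C := le_add_of_nonneg_right (by positivity)
  have C2 : c * (2 * d) ^ 2 ≤ C := le_add_of_nonneg_left (by positivity)
  have C0 : 0 ≤ C := by positivity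
  have z0 : m.Z 0 = id := funext ok.zero
  have hq : ∀ (z w : W) (ε : ℝ), ‖z‖ ≤ R₁ → ‖w.2‖ = 1 → ε ≤ 1 → df m lg z w 0 ≤ ε →
      ‖w‖ ≤ max R₁ R₂ := by
    intro z w ε hz hw ε1 l0
    rw [Prod.norm_def]
    refine max_le (le_max_of_le_right (hR₂ z.1 w.1 ((norm_fst_le z).trans hz) ?_)) ?_
    · have := (l0.trans ε1).trans r1
      simpa only [df, ok.zero] using this
    · rw [hw]
      exact le_max_of_le_left r1
  refine ⟨C, C0, fun k => ?_⟩
  suffices h : ∀ (z w ξ : W) (ε B : ℝ), ‖z‖ ≤ R₁ → ‖z.2‖ = 1 → ‖w.2‖ = 1 → ε ≤ 1 →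
      (∀ j : ℕ, j ≤ k + 1 → df m lg z w j ≤ ε) →
      (∀ j : ℕ, j ≤ k → nn m b (m.Z j z) (fderiv ℝ (m.Z j) z ξ) ≤ B) →
      |om m z ξ (w - z)| ≤ C * B * (k * ε ^ 2 + df m lg z w k + df m lg z w (k + 1)) from
    fun z w ξ ε B hz => h z w ξ ε B (le_max_of_le_left hz)
  induction k with
  | zero =>
    intro z w ξ ε B hz _ hw ε1 hdf hnn
    have l0 := hdf 0 (Nat.zero_le _)
    have n0 := hnn 0 le_rfl
    rw [Nat.cast_zero] at l0 n0 ⊢
    rw [z0, fderiv_id] at n0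
    replace n0 : nn m b z ξ ≤ B := n0
    have N0 : 0 ≤ nn m b z ξ := Real.sqrt_nonneg _
    have B0 : 0 ≤ B := N0.trans n0
    have i1 := (ho z ξ (w - z) (le_max_of_le_left hz)).1
    have i2 := hd z w (le_max_of_le_left hz) (hq z w ε hz hw ε1 l0)
    have D0 : 0 ≤ df m lg z w 0 + df m lg z w 1 := add_nonneg (norm_nonneg _) (norm_nonneg _)
    rw [zero_mul, zero_add, zero_add]
    calc _ ≤ _ := i1
      _ ≤ o * B * (d * (df m lg z w 0 + df m lg z w 1)) :=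
        mul_le_mul (mul_le_mul_of_nonneg_left n0 o0) i2 (norm_nonneg _) (by positivity)
      _ = o * d * (B * (df m lg z w 0 + df m lg z w 1)) := by ring
      _ ≤ C * (B * (df m lg z w 0 + df m lg z w 1)) :=
        mul_le_mul_of_nonneg_right C1 (mul_nonneg B0 D0)
      _ = _ := by ring
  | succ k ih =>
    intro z w ξ ε B hz hz2 hw ε1 hdf hnn
    obtain ⟨γ, hγ⟩ := hK' (m.Z 1 z).1
    have m2 := (kit.mv γ 1 z ξ).2.1 w
    rw [Nat.cast_one] at m2
    have hγ' : ‖γ • (m.Z 1 z).1‖ ≤ R₁ := le_max_of_le_right (le_max_of_le_left (hR₀ _ hγ))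
    have u : ∀ p : W, ‖p.2‖ = 1 → ‖(ac O γ (m.Z 1 p)).2‖ = 1 := by
      intro p hp
      change ‖O γ _ (m.Z 1 p).2‖ = 1
      rw [LinearIsometryEquiv.norm_map, nw.jac.norm, hp]
    have n1 : ‖ac O γ (m.Z 1 z)‖ ≤ R₁ := by
      rw [Prod.norm_def, u z hz2]
      exact max_le hγ' r1
    have l0 := hdf 0 (Nat.zero_le _)
    have l1 := hdf 1 (by omega)
    have b1 := hnn 1 (by omega)
    rw [Nat.cast_zero] at l0
    rw [Nat.cast_one] at l1 b1
    have ε0 : 0 ≤ ε := (norm_nonneg _).trans l0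
    have B0 : 0 ≤ B := (Real.sqrt_nonneg _).trans b1
    have hw' := hq z w ε hz hw ε1 l0
    have i1 := ih _ _ (fderiv ℝ (ac O γ) (m.Z 1 z) (fderiv ℝ (m.Z 1) z ξ)) ε B n1 (u z hz2)
      (u w hw) ε1 (fun j hj => by
        have := hdf (j + 1) (by omega)
        rw [m2]
        rwa [Nat.cast_succ] at this) (fun j hj => by
        have := hnn (j + 1) (by omega)
        rw [Nat.cast_succ] at this
        rw [RMov.chain1 ok act, RMov.fl_ac act, (kit.mv γ j (m.Z 1 z) _).1, RMov.chain2 ok,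
          ← ok.add]
        exact this)
    rw [m2, m2] at i1
    have i2 := hc γ z w ξ (le_max_of_le_left hz) hw' (le_max_of_le_left hγ')
    have i4 : ‖w - z‖ ≤ 2 * d * ε := by
      have := hd z w (le_max_of_le_left hz) hw'
      have h2 := mul_le_mul_of_nonneg_left (add_le_add l0 l1) d0
      linarith
    have i5 : ‖w - z‖ ^ 2 ≤ (2 * d * ε) ^ 2 := by gcongr
    have j2 := i2.trans (mul_le_mul (mul_le_mul_of_nonneg_left b1 c0) i5 (sq_nonneg _)
      (by positivity))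
    have j3 : c * B * (2 * d * ε) ^ 2 ≤ C * B * ε ^ 2 := by
      have := mul_le_mul_of_nonneg_right C2 (mul_nonneg B0 (sq_nonneg ε))
      calc _ = c * (2 * d) ^ 2 * (B * ε ^ 2) := by ring
        _ ≤ _ := this
        _ = _ := by ring
    rw [Nat.cast_succ]
    rw [abs_le] at i1 j2 ⊢
    constructor <;> nlinarith [i1.1, i1.2, j2.1, j2.2]

end Pool.Agent.MP_3ee8cb_gt.T0
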