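import Pool.Agent.MP_3ee8cb_gt.DNB2.Spec

/-! A nonpositively curved source of a conjugacy has uniformly convex spheres: the rows. -/

namespace Pool.Agent.MP_3ee8cb_gt.T0

open DN (Dim dm)

variable [Dim]

open Set Filter Topology Real DN DNC0 DNB2
open CR (Met UT dd ng bus MinP)
open LV (QP CJ BP ThP LbP Lp1P OnMan)
open scoped RealInnerProductSpace ContDiff

noncomputable section

/-- A nonpositively curved space with a cocompact group. -/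
structure N0 (m : MF) (lg : W → V) (Γ : Type) [Group Γ] [MulAction Γ V]
    (O : Γ → V → V ≃ₗᵢ[ℝ] V) (b : ℝ) : Prop where
  ok : m.OK
  jac : m.Jac
  had : m.Had lg
  act : Act m Γ O
  b0 : 0 < b
  up : m.Up 0
  dn : m.Dn (b ^ 2)
  fin : ∀ R : ℝ, {γ : Γ | ∃ x : V, ‖x‖ ≤ R ∧ ‖γ • x‖ ≤ R}.Finite
  qz : Q2 (m.Z 1)
  qa : ∀ γ, ContDiff ℝ 2 (ac O γ)

def On0 (P : ∀ (_ : MF) (_ : W → V) (Γ : Type) [Group Γ] [MulAction Γ V]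
    (_ : Γ → V → V ≃ₗᵢ[ℝ] V) (_ : ℝ), Prop) : Prop :=
  ∀ (m : MF) (lg : W → V) (Γ : Type) [Group Γ] [MulAction Γ V] (O : Γ → V → V ≃ₗᵢ[ℝ] V)
    (b : ℝ), N0 m lg Γ O b → P m lg Γ O b

/-- The distance of two geodesics is convex. -/
def Cv (m : MF) (lg : W → V) : Prop := ∀ p q : W, ConvexOn ℝ univ (df m lg p q)

/-- The facts taken over from the negatively curved case. -/
structure Kit (m : MF) (lg : W → V) (Γ : Type) [Group Γ] [MulAction Γ V]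
    (O : Γ → V → V ≃ₗᵢ[ℝ] V) (b : ℝ) : Prop where
  bs : Bs m lg Γ
  jf : Jf m lg 0 b
  st : Step m O b
  mv : Mov m lg O 0 b
  md : Mid m lg

/-- Busemann functions. -/
structure B0 (m : MF) (lg : W → V) (β : W → V → ℝ) : Prop where
  lim : ∀ (z : W) (y : V), ‖z.2‖ = 1 → Tendsto (fun T : ℕ => bt m lg T z y) atTop (𝓝 (β z y))
  lip : ∀ (z : W) (x y : V), ‖z.2‖ = 1 → β z x - β z y ≤ ‖lg (x, y)‖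
  self : ∀ (z : W) (t : ℝ), ‖z.2‖ = 1 → β z (m.Z t z).1 = -t
  shift : ∀ (z : W) (t : ℝ) (y : V), ‖z.2‖ = 1 → β (m.Z t z) y = β z y + t
  top : ∀ p q : W, ‖p.2‖ = 1 → ‖q.2‖ = 1 → Fw m lg p q → ∀ y, β p y = β q y
  opp : ∀ (z : W) (y : V), ‖z.2‖ = 1 → 0 ≤ β z y + β (fl z) y

def Lb0 (m : MF) (β : W → V → ℝ) : Prop := ∀ (z : W) (l : V), ‖z.2‖ = 1 →
  -⟪z.2, l⟫ ≤ β z (m.Z 1 (z.1, l)).1

/-- Geodesics that stay close are asymptotic after a shift. -/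
def X1 (m : MF) (lg : W → V) (e : ℝ) : Prop := ∀ w z : W, ‖w.2‖ = 1 → ‖z.2‖ = 1 →
  (∀ t, 0 ≤ t → df m lg w z t ≤ e) → ∃ c : ℝ, Fw m lg (m.Z c w) z

/-- Offsets are exponentially small. -/
def X2 (m : MF) (lg : W → V) (β : W → V → ℝ) (e : ℝ) : Prop := ∃ C α t₁ : ℝ, 0 ≤ C ∧ 0 < α ∧
  ∀ (z p q : W) (t : ℝ), ‖z.2‖ = 1 → ‖p.2‖ = 1 → ‖q.2‖ = 1 → t₁ ≤ t → Fw m lg q z → Bw m lg p z →
    (∀ r, 0 ≤ r → df m lg q z r ≤ e) → (∀ r, r ≤ t → df m lg p z r ≤ e) →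
      ∀ y, -(C * exp (-(α * t))) ≤ β p y + β (fl q) y

/-- Asymptotes through nearby points. -/
def As (m : MF) (lg : W → V) (β : W → V → ℝ) (e : ℝ) : Prop := ∀ (z : W) (y : V), ‖z.2‖ = 1 →
  ‖lg (z.1, y)‖ ≤ e → ∃ n : V, ‖n‖ = 1 ∧ (∀ t, 0 ≤ t → df m lg z (y, n) t ≤ ‖lg (z.1, y)‖) ∧
    Fw m lg (m.Z (β z y) (y, n)) z

/-- Asymptotic geodesics approach exponentially. -/
def Dec (m : MF) (lg : W → V) (e : ℝ) : Prop := ∃ C α t₁ : ℝ, 0 ≤ C ∧ 0 < α ∧ ∀ z q : W,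
  ‖z.2‖ = 1 → ‖q.2‖ = 1 → Fw m lg q z → df m lg z q 0 ≤ e →
    ∀ t, t₁ ≤ t → df m lg z q t ≤ C * exp (-(α * t))

/-- Jacobi fields with a zero in the future. -/
def Jb (m : MF) (b : ℝ) : Prop := ∃ B : ℝ, 0 ≤ B ∧ ∀ (z ξ : W) (T : ℝ), ‖z.2‖ = 1 →
  ‖m.hor z ξ‖ = 1 → 0 < T → m.J z ξ T = 0 → 1 / T ≤ -⟪m.ver z ξ, m.hor z ξ⟫ ∧
    (-⟪m.ver z ξ, m.hor z ξ⟫ ≤ 1 → ∀ t, 0 ≤ t → t ≤ T - 1 →
      nn m b (m.Z t z) (fderiv ℝ (m.Z t) z ξ) ≤ B)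

/-- Telescoping against a bounded Jacobi field. -/
def Tl (m : MF) (lg : W → V) (b : ℝ) : Prop := ∀ R : ℝ, ∃ C : ℝ, 0 ≤ C ∧
  ∀ (k : ℕ) (z w ξ : W) (ε B : ℝ), ‖z‖ ≤ R → ‖z.2‖ = 1 → ‖w.2‖ = 1 → ε ≤ 1 →
    (∀ j : ℕ, j ≤ k + 1 → df m lg z w j ≤ ε) →
    (∀ j : ℕ, j ≤ k → nn m b (m.Z j z) (fderiv ℝ (m.Z j) z ξ) ≤ B) →
      |om m z ξ (w - z)| ≤ C * B * (k * ε ^ 2 + df m lg z w k + df m lg z w (k + 1))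

/-- The pairing at the start. -/
def Ty (m : MF) : Prop := ∀ R A : ℝ, ∃ C : ℝ, 0 ≤ C ∧ ∀ (z ξ c : W) (n : V) (δ : ℝ), ‖z‖ ≤ R →
  ‖z.2‖ = 1 → ‖m.hor z ξ‖ = 1 → ⟪m.hor z ξ, z.2⟫ = 0 → ‖n‖ = 1 → 0 < δ → δ ≤ 1 →
    c = m.Z δ (z.1, m.hor z ξ) → ‖(c.1, n) - z‖ ≤ A * δ →
      |om m z ξ ((c.1, n) - z) - ⟪c.2, n⟫ + δ * ⟪m.ver z ξ, m.hor z ξ⟫| ≤
        C * δ ^ 2 * (1 + ‖m.ver z ξ‖)

/-- Spheres are uniformly convex. -/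
def An (m : MF) (a : ℝ) : Prop := ∀ (z ξ : W) (T : ℝ), ‖z.2‖ = 1 → ‖m.hor z ξ‖ = 1 →
  ⟪m.hor z ξ, z.2⟫ = 0 → 0 < T → m.J z ξ T = 0 → a ≤ -⟪m.ver z ξ, m.hor z ξ⟫

/-- The exponential hinge inequality in frames. -/
def Hf (m : MF) (lg : W → V) (a : ℝ) : Prop := ∀ x p q : V, ‖p‖ = 1 → ‖q‖ = 1 → ∀ s t : ℝ,
  0 ≤ s → 0 ≤ t → exp (a * s) * (cosh (a * t) - ⟪p, q⟫ * sinh (a * t)) ≤
    exp (a * ‖lg ((m.Z s (x, p)).1, (m.Z t (x, q)).1)‖)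

def Tf (m : MF) (lg : W → V) (a : ℝ) : Prop := ∀ y u u' : V, ‖u‖ = 1 → ‖u'‖ = 1 → ∀ R T : ℝ,
  0 ≤ T → T ≤ R → cosh (a * df m lg (y, u) (y, u') (R - T)) ≤
    1 + exp (-(2 * a * T)) * (cosh (a * df m lg (y, u) (y, u') R) - 1)

def SCV : Prop := On0 fun m lg _ _ _ _ _ => Cv m lg
def SKIT : Prop := On0 fun m lg Γ _ _ O b => Cv m lg → Kit m lg Γ O b
def SLB0 : Prop := On0 fun m lg Γ _ _ O b => ∀ β, Kit m lg Γ O b → B0 m lg β → Lb0 m β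
def SAS : Prop := On0 fun m lg Γ _ _ O b => ∀ β e, Cv m lg → Kit m lg Γ O b → B0 m lg β →
  X1 m lg e → As m lg β e
def SDEC : Prop := On0 fun m lg Γ _ _ O b => ∀ β e, Cv m lg → Kit m lg Γ O b → B0 m lg β →
  Lb0 m β → X2 m lg β e → As m lg β e → 0 < e → Dec m lg (e / 2)
def SJB : Prop := On0 fun m _ _ _ _ _ b => Jb m b
def STL : Prop := On0 fun m lg Γ _ _ O b => Kit m lg Γ O b → Tl m lg b
def STY : Prop := On0 fun m _ _ _ _ _ _ => Ty m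
def SAN : Prop := On0 fun m lg Γ _ _ O b => ∀ β e, 0 < e → Cv m lg → Kit m lg Γ O b →
  B0 m lg β → Lb0 m β → As m lg β e → Dec m lg (e / 2) → Jb m b → Tl m lg b → Ty m →
  ∃ a, 0 < a ∧ a ≤ b ∧ An m a
def SHF : Prop := On0 fun m lg Γ _ _ O b => ∀ a, 0 < a → Kit m lg Γ O b → An m a → Hf m lg a
def STF : Prop := On0 fun m lg Γ _ _ O b => ∀ a, 0 < a → Kit m lg Γ O b → Hf m lg a → Tf m lg a

/-! ### The world of metrics -/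

section Metric

variable {n : ℕ}

/-- The exponential hinge inequality. -/
def Hm (g : Met n) (Φ : ℝ → UT g → UT g) (a : ℝ) : Prop := ∀ p q : UT g, p.1.1 = q.1.1 →
  ∀ s t : ℝ, 0 ≤ s → 0 ≤ t → exp (a * s) * (cosh (a * t) - g p.1.1 p.1.2 q.1.2 * sinh (a * t)) ≤
    exp (a * dd g (Φ s p).1.1 (Φ t q).1.1)

/-- The far past of `w` and the far future of a nearby `w'` are far apart. -/
def Far (g : Met n) (Φ : ℝ → UT g → UT g) : Prop := ∃ K δ₀ : ℝ, 0 ≤ K ∧ 0 < δ₀ ∧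
  ∀ (δ j : ℝ) (w w' : UT g), 0 ≤ δ → δ ≤ δ₀ → 1 ≤ j → dd g w.1.1 w'.1.1 ≤ δ →
    dd g (Φ 1 w).1.1 (Φ 1 w').1.1 ≤ δ → 2 * j - K * δ ≤ dd g (Φ (-j) w).1.1 (Φ j w').1.1

def Nm (g : Met n) (Φ : ℝ → UT g → UT g) : Prop := ∃ K δ₀ : ℝ, 0 ≤ K ∧ 0 < δ₀ ∧
  ∀ (δ : ℝ) (w w' : UT g), 0 ≤ δ → δ ≤ δ₀ → dd g w.1.1 w'.1.1 ≤ δ →
    dd g (Φ 1 w).1.1 (Φ 1 w').1.1 ≤ δ → ∀ x, -(K * δ) ≤ bus g Φ w' x + bus g Φ (ng w) x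

end Metric

def SHIN : Prop := OnMan fun _ g _ _ _ Φ => ∀ a, 0 < a → LV.Hinge g Φ a → Hm g Φ a
def SFAR : Prop := OnMan fun _ g _ _ _ Φ => ∀ a, 0 < a → MinP g Φ → Hm g Φ a → Far g Φ
def SNM : Prop := OnMan fun _ g _ _ _ Φ => BP g Φ → Far g Φ → Nm g Φ
def SLP : Prop := OnMan fun _ g _ _ _ Φ => ∀ a, 0 < a → MinP g Φ → Hm g Φ a → Far g Φ → Lp1P g Φ
def SLBE : Prop := OnMan fun _ g _ _ _ Φ => ∀ a, 0 < a → BP g Φ → Hm g Φ a → LbP g Φ a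

/-! ### The pair -/

/-- The lower bound for offsets in frames. -/
def Nf (m : MF) (lg : W → V) (β : W → V → ℝ) : Prop := ∃ K δ₀ : ℝ, 0 ≤ K ∧ 0 < δ₀ ∧
  ∀ (δ : ℝ) (q p : W), ‖q.2‖ = 1 → ‖p.2‖ = 1 → 0 ≤ δ → δ ≤ δ₀ → df m lg q p 0 ≤ δ →
    df m lg q p 1 ≤ δ → ∀ x, -(K * δ) ≤ β p x + β (fl q) x

/-- The conjugacy in frames. -/
structure Pr (m : MF) (lg : W → V) (m' : MF) (lg' : W → V) (φ : W → W) : Prop where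
  unit : ∀ z : W, ‖z.2‖ = 1 → ‖(φ z).2‖ = 1
  onto : ∀ z' : W, ‖z'.2‖ = 1 → ∃ z : W, ‖z.2‖ = 1 ∧ φ z = z'
  flow : ∀ (t : ℝ) (z : W), ‖z.2‖ = 1 → φ (m.Z t z) = m'.Z t (φ z)
  fw : ∀ p q : W, ‖p.2‖ = 1 → ‖q.2‖ = 1 → (Fw m lg p q ↔ Fw m' lg' (φ p) (φ q))
  bw : ∀ p q : W, ‖p.2‖ = 1 → ‖q.2‖ = 1 → (Bw m lg p q ↔ Bw m' lg' (φ p) (φ q))
  uc : ∀ ε : ℝ, 0 < ε → ∃ δ : ℝ, 0 < δ ∧ ∀ p q : W, ‖p.2‖ = 1 → ‖q.2‖ = 1 →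
    (∀ t ∈ Icc (0 : ℝ) 1, df m lg p q t ≤ δ) → df m' lg' (φ p) (φ q) 0 ≤ ε

/-- A statement about a nonpositively curved source and a negatively curved target. -/
def OnT (P : MF → (W → V) → (W → V → ℝ) → Prop) : Prop :=
  ∀ (m : MF) (lg : W → V) (Γ : Type) [Group Γ] [MulAction Γ V] (O : Γ → V → V ≃ₗᵢ[ℝ] V) (b : ℝ)
    (β : W → V → ℝ) (m' : MF) (lg' : W → V) (Λ : Type) [Group Λ] [MulAction Λ V]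
    (O' : Λ → V → V ≃ₗᵢ[ℝ] V) (a' b' : ℝ) (β' : W → V → ℝ) (φ : W → W), N0 m lg Γ O b →
    Bs m lg Γ → B0 m lg β → NV m' lg' Λ O' a' b' → Bs m' lg' Λ → Bz m' lg' a' β' →
    Asy m' lg' a' β' → Nf m' lg' β' → Pr m lg m' lg' φ → P m lg β

def SX1 : Prop := OnT fun m lg _ => ∃ e, 0 < e ∧ X1 m lg e
def SX2 : Prop := OnT fun m lg β => ∃ e, 0 < e ∧ X2 m lg β e

/-! ### Links -/

def SHAD0 : Prop := On1 fun h C _ _ _ Ψ => ∀ m : MF, m.OK → m.Jac → Lk h C Ψ m → m.Up 0 →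
  (∃ lg, m.Had lg ∧ ∀ y z, ‖lg (y, z)‖ = dd h y z) ∧ MinP h Ψ

def SLINK : Prop := SHAD0 → ∀ (g : Met dm) (Γ : Type) [Group Γ] [MulAction Γ V]
  (Φ : ℝ → UT g → UT g), DNIN.SM g Γ Φ → TB.CurvLe g 0 → ∃ (C : TB.Chr dm) (m : MF) (lg : W → V)
    (O : Γ → V → V ≃ₗᵢ[ℝ] V) (b : ℝ) (β : W → V → ℝ), TB.IsChr g C ∧ Lk g C Φ m ∧
      N0 m lg Γ O b ∧ MinP g Φ ∧ Ln g Φ m lg β ∧ B0 m lg β

def SCON : Prop := On1 fun g C _ _ _ Φ => ∀ (m : MF) (lg : W → V) (β : W → V → ℝ) (a : ℝ), m.OK →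
  Lk g C Φ m → Ln g Φ m lg β → (Hf m lg a → Hm g Φ a) ∧ (Tf m lg a → ThP g Φ a) ∧
    (Nm g Φ → Nf m lg β)

def SBZ0 : Prop := On1 fun g C _ _ _ Φ => ∀ (m : MF) (lg : W → V) (β : W → V → ℝ) (a : ℝ), m.OK →
  Lk g C Φ m → Ln g Φ m lg β → B0 m lg β → 0 < a → MinP g Φ → ThP g Φ a → LbP g Φ a →
  Lp1P g Φ → Bz m lg a β

def SPR : Prop := ∀ (g h : Met dm) (Γ Λ : Type) [Group Γ] [Group Λ] [MulAction Γ V]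
  [MulAction Λ V] (Φ : ℝ → UT g → UT g) (Ψ : ℝ → UT h → UT h) (ρ : Γ ≃* Λ) (F : UT g ≃ₜ UT h)
  (m m' : MF) (lg lg' : W → V) (β β' : W → V → ℝ), QP g Γ Φ → QP h Λ Ψ → CJ g h Φ Ψ ρ F →
  MinP g Φ → MinP h Ψ → m.OK → m'.OK → Ln g Φ m lg β → Ln h Ψ m' lg' β' →
    Asp g h Φ Ψ F ∧ ∃ φ, Pr m lg m' lg' φ

/-- Part B for a nonpositively curved source. -/
def PartB0 : Prop := DNIN.On3 fun g h _ _ _ _ _ _ _ F => ∀ a b : ℝ, 0 < a → b ^ 2 < 4 * a ^ 2 →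
  TB.CurvLe g 0 → DNIN.Pinch h a b → DNIN.C1F F ∧ DNIN.C1F F.symm

end

end Pool.Agent.MP_3ee8cb_gt.T0
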