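import Pool.Agent.MP_3ee8cb_gt.T0.Spec
import Pool.Agent.MP_3ee8cb_gt.DNB2.All
import Pool.Agent.MP_3ee8cb_gt.DNB2.Fin

/-! A nonpositively curved source: assembly of the rows. -/

namespace Pool.Agent.MP_3ee8cb_gt.T0

open DN (Dim dm)

variable [Dim]

open Set Filter Topology Real DN DNC0 DNB2
open CR (Met UT dd ng MinP)

structure Rows : Prop where
  cv : SCV
  kit : SKIT
  lb0 : SLB0
  as_ : SAS
  dec : SDEC
  jb : SJB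
  tl : STL
  ty : STY
  an : SAN
  hf : SHF
  tf : STF
  hin : SHIN
  far : SFAR
  nm : SNM
  lp : SLP
  lbe : SLBE
  x1 : SX1
  x2 : SX2
  had0 : SHAD0
  link : SLINK
  con : SCON
  bz0 : SBZ0
  pr : SPR

theorem X1.mono {m : MF} {lg : W → V} {e e' : ℝ} (h : X1 m lg e) (l : e' ≤ e) : X1 m lg e' :=
  fun w z hw hz H => h w z hw hz fun t ht => (H t ht).trans l

theorem X2.mono {m : MF} {lg : W → V} {β : W → V → ℝ} {e e' : ℝ} (h : X2 m lg β e) (l : e' ≤ e) :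
    X2 m lg β e' := by
  obtain ⟨C, α, t₁, C0, a0, H⟩ := h
  exact ⟨C, α, t₁, C0, a0, fun z p q t hz hp hq ht f b h1 h2 =>
    H z p q t hz hp hq ht f b (fun r hr => (h1 r hr).trans l) fun r hr => (h2 r hr).trans l⟩

/-- The negatively curved target. -/
theorem target (r : Rows) {g : Met dm} {Γ : Type} [Group Γ] [MulAction Γ V]
    {Φ : ℝ → UT g → UT g} {a b : ℝ} (sm : DNIN.SM g Γ Φ) (ha : 0 < a) (hp : DNIN.Pinch g a b) :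
    ∃ (m : MF) (lg : W → V) (β : W → V → ℝ) (O : Γ → V → V ≃ₗᵢ[ℝ] V),
      NV m lg Γ O a (max |b| a) ∧ Pk g Φ a ∧ Ln g Φ m lg β ∧ Bz m lg a β ∧ Bs m lg Γ ∧
        Asy m lg a β ∧ Nf m lg β := by
  obtain ⟨C, hC, hc⟩ := hp
  have cl : TB.CurvLe g a := ⟨C, hC, fun x u v => (hc x u v).1⟩
  have pk := DNC0.pk DNC0.near g C Γ Φ sm.qp hC a ha cl
  obtain ⟨m, ok, lk, c2⟩ := DNC0.frm3 g C Γ Φ sm.qp hC sm.sm
  have jac := DN.sJAC m ok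
  obtain ⟨lg, had, hd⟩ := DNFL.had g C Γ Φ sm.qp hC m a ok jac lk ha cl
  obtain ⟨O, act⟩ := DN.sACT g C Γ Φ sm.qp hC m ok lk (d2_of sm)
  have w := DNB2.br stay g C Γ Φ sm.qp hC m lg O a b sm.act ok jac lk c2 had hd act ha
    (fun x u v => ⟨(hc x u v).2, (hc x u v).1⟩) pk.th
  obtain ⟨β, ln, bz⟩ := DNB2.bz g C Γ Φ sm.qp hC m lg a ok jac lk had hd ha cl
  have bs := DNB2.bs m lg Γ O a _ w
  have hi : LV.Hinge g Φ a := fun p p' e s t hs ht => by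
    have := TB.hinge dm g Γ Φ a sm.qp.rp ha cl p p' e s t hs ht
    rwa [mul_assoc] at this
  exact ⟨m, lg, β, O, w, pk, ln, bz, bs,
    DNB2.asy m lg Γ O a _ w β bs (DNB2.seg m lg Γ O a _ w bs (DNB2.jf m lg Γ O a _ w)) bz,
    (r.con g C Γ Φ sm.qp hC m lg β a ok lk ln).2.2 (r.nm dm g Γ Φ sm.qp pk.bp
      (r.far dm g Γ Φ sm.qp a ha pk.min (r.hin dm g Γ Φ sm.qp a ha hi)))⟩

theorem partB0_of (r : Rows) : PartB0 := by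
  intro g h Γ Λ _ _ _ _ Φ Ψ ρ F sg sh cj a b ha hb cg ph
  obtain ⟨m', lg', β', O', w', pk', ln', bz', bs', as', nf'⟩ := target r sh ha ph
  obtain ⟨C, m, lg, O, b', β, hC, lk, n0, mi, ln, b0⟩ := r.link r.had0 g Γ Φ sg cg
  obtain ⟨asp, φ₀, pr⟩ := r.pr g h Γ Λ Φ Ψ ρ F m m' lg lg' β β' sg.qp sh.qp cj mi pk'.min n0.ok
    w'.ok ln ln'
  have cv := r.cv m lg Γ O b' n0
  have kit := r.kit m lg Γ O b' n0 cv
  have l0 := r.lb0 m lg Γ O b' n0 β kit b0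
  obtain ⟨e₁, p1, x1⟩ := r.x1 m lg Γ O b' β m' lg' Λ O' a _ β' φ₀ n0 kit.bs b0 w' bs' bz' as' nf' pr
  obtain ⟨e₂, p2, x2⟩ := r.x2 m lg Γ O b' β m' lg' Λ O' a _ β' φ₀ n0 kit.bs b0 w' bs' bz' as' nf' pr
  have e0 := lt_min p1 p2
  have as0 := r.as_ m lg Γ O b' n0 β _ cv kit b0 (x1.mono (min_le_left e₁ e₂))
  obtain ⟨a', ha', hm, an⟩ := r.an m lg Γ O b' n0 β _ e0 cv kit b0 l0 as0
    (r.dec m lg Γ O b' n0 β _ cv kit b0 l0 (x2.mono (min_le_right e₁ e₂)) as0 e0)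
    (r.jb m lg Γ O b' n0) (r.tl m lg Γ O b' n0 kit) (r.ty m lg Γ O b' n0)
  have hf := r.hf m lg Γ O b' n0 a' ha' kit an
  have tf := r.tf m lg Γ O b' n0 a' ha' kit hf
  obtain ⟨c1, c2, -⟩ := r.con g C Γ Φ sg.qp hC m lg β a' n0.ok lk ln
  have bp := LV.bp dm g Γ Φ sg.qp mi
  have bz := r.bz0 g C Γ Φ sg.qp hC m lg β a' n0.ok lk ln b0 ha' mi (c2 tf)
    (r.lbe dm g Γ Φ sg.qp a' ha' bp (c1 hf))
    (r.lp dm g Γ Φ sg.qp a' ha' mi (c1 hf) (r.far dm g Γ Φ sg.qp a' ha' mi (c1 hf)))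
  have w : NV m lg Γ O a' b' :=
    ⟨n0.ok, n0.jac, n0.had, n0.act, ha', hm, n0.up, n0.dn, tf, n0.fin, n0.qz, n0.qa⟩
  have ex1 := world rows1 w bz (div_pos ha' n0.b0) ((div_le_one n0.b0).2 hm)
    (by rw [mul_div_cancel₀ _ n0.b0.ne']; linarith)
  have ex2 := world rows1 w' bz' one_pos le_rfl (by
    rw [mul_one]
    refine max_lt (abs_lt_of_sq_lt_sq (by linarith) (by linarith)) (by linarith))
  have s := rows2
  obtain ⟨φ, ψ, c1, c2, e1, e2⟩ := s.cj g h Φ Ψ m m' lg lg' β β' a' a F ln ln' w.ok w'.ok w.jac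
    w'.jac w.had w'.had bz bz' (DNC0.inv.1 dm g Φ bp) (DNC0.inv.1 dm h Ψ pk'.bp) asp
  have it := s.iter s.boota s.bootb m lg β m' lg' β' φ ψ c1 c2 _ _ _ ex1.s0 ex1.s1 ex1.k0 ex1.k1
    ex2.k0 ex2.k1 (s.lf _ _ _ _ _ ex1) (s.lf _ _ _ _ _ ex2)
  have i1 := fun θ h0 h1 => (it θ h0 h1).1
  have i2 := fun θ h0 h1 => (it θ h0 h1).2
  exact ⟨s.fin g h m m' F φ w.ok w'.ok ln.unit e1 (s.lin φ (s.lina m lg β m' lg' β' φ ψ c1 c2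
      _ _ _ _ ex1 ex2 i2 (s.gen m lg β m' lg' β' φ ψ c1 c2 _ _ _ _ ex1 ex2 i2))),
    s.fin h g m' m F.symm ψ w'.ok w.ok ln'.unit e2 (s.lin ψ (s.lina m' lg' β' m lg β ψ φ c2 c1
      _ _ _ _ ex2 ex1 i1 (s.gen m' lg' β' m lg β ψ φ c2 c1 _ _ _ _ ex2 ex1 i1)))⟩

end Pool.Agent.MP_3ee8cb_gt.T0
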